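import Pool.Agent.Run7.h2.OB.Tr
import Pool.Agent.N383.LCU

set_option autoImplicit false
set_option linter.unusedSectionVars false

/-!
# From one place to all places: the places
-/

open Module Matrix Polynomial

noncomputable section

namespace Run7.h2.OB

open Pool.Agent Pool.Agent.Y102 Pool.Agent.W516.DR Pool.Agent.H204R3.GP Pool.Agent.W516.KC
  Pool.Agent.H204R3.SP Pool.Agent.TH119.MX Pool.Agent.R917 Pool.Agent.N208.AM Pool.Agent.N208.AD
  Pool.Agent.N208.BT

variable {g : ℕ} {A : AbVar g} {z : Module.End ℚ A.H1}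

/-! ### Matrices -/

section mat

variable {N : ℕ} {sg : Fin N → ℝ}

/-- the adjoint matrix for the hermitian form -/
def adj (sg : Fin N → ℝ) (m : MN N) : MN N :=
  Matrix.of fun i j => (sg i : ℂ) * star (m j i) * sg j

theorem hs_adj (hsg : IsSg sg) (m : MN N) (x y : VN N) :
    hs sg (m *ᵥ x) y = hs sg x (adj sg m *ᵥ y) := by
  have hs2 : ∀ i, (sg i : ℂ) * sg i = 1 := by
    intro i
    rcases hsg i with h | h <;> rw [h] <;> norm_num
  have hst : ∀ i, star (sg i : ℂ) = sg i := fun i => Complex.conj_ofReal _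
  simp only [hs, Matrix.mulVec, dotProduct, adj, Matrix.of_apply, Finset.mul_sum, Finset.sum_mul,
    star_sum, star_mul', star_star, hst]
  rw [Finset.sum_comm]
  refine Finset.sum_congr rfl fun j _ => Finset.sum_congr rfl fun i _ => ?_
  linear_combination (-(m i j * x j * sg i * star (y i))) * hs2 j

theorem hs_adj' (hsg : IsSg sg) (m : MN N) (x y : VN N) :
    hs sg (adj sg m *ᵥ x) y = hs sg x (m *ᵥ y) := by
  rw [← N768.BG.hs_star, ← hs_adj hsg, N768.BG.hs_star]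

theorem adj_trace (hsg : IsSg sg) {m : MN N} (h : m.trace = 0) : (adj sg m).trace = 0 := by
  have hs2 : ∀ i, (sg i : ℂ) * sg i = 1 := by
    intro i
    rcases hsg i with h | h <;> rw [h] <;> norm_num
  have h1 : (adj sg m).trace = star m.trace := by
    simp only [Matrix.trace, Matrix.diag_apply, adj, Matrix.of_apply, star_sum]
    refine Finset.sum_congr rfl fun i _ => ?_
    linear_combination (star (m i i)) * hs2 i
  rw [h1, h, star_zero]

/-- every matrix of trace zero is a complex combination of two skew matrices of trace zero -/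
theorem dec_skew (hsg : IsSg sg) {m : MN N} (h : m.trace = 0) : ∃ a b : MN N,
    IsSks sg a ∧ a.trace = 0 ∧ IsSks sg b ∧ b.trace = 0 ∧ m = a + Complex.I • b := by
  have hI : star Complex.I = -Complex.I := Complex.conj_I
  have h2 : star (2⁻¹ : ℂ) = 2⁻¹ := by
    rw [star_inv₀]
    congr 1
    exact map_ofNat (starRingEnd ℂ) 2
  refine ⟨(2⁻¹ : ℂ) • (m - adj sg m), (-(Complex.I * 2⁻¹)) • (m + adj sg m), fun x y => ?_, ?_,
    fun x y => ?_, ?_, ?_⟩
  · rw [Matrix.smul_mulVec, Matrix.smul_mulVec, Matrix.sub_mulVec, Matrix.sub_mulVec,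
      N768.BG.hs_smul_left, N768.BG.hs_smul_right, h2, sub_eq_add_neg, sub_eq_add_neg,
      N768.BG.hs_add_left, N768.BG.hs_add_right, ← neg_one_smul ℂ (adj sg m *ᵥ x),
      ← neg_one_smul ℂ (adj sg m *ᵥ y), N768.BG.hs_smul_left, N768.BG.hs_smul_right, star_neg,
      star_one, hs_adj hsg, hs_adj' hsg]
    ring
  · rw [Matrix.trace_smul, Matrix.trace_sub, h, adj_trace hsg h, sub_zero, smul_zero]
  · rw [Matrix.smul_mulVec, Matrix.smul_mulVec, Matrix.add_mulVec, Matrix.add_mulVec,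
      N768.BG.hs_smul_left, N768.BG.hs_smul_right, star_neg, star_mul', h2, hI,
      N768.BG.hs_add_left, N768.BG.hs_add_right, hs_adj hsg, hs_adj' hsg]
    ring
  · rw [Matrix.trace_smul, Matrix.trace_add, h, adj_trace hsg h, add_zero, smul_zero]
  · have h3 : Complex.I * -(Complex.I * 2⁻¹) = (2⁻¹ : ℂ) := by
      linear_combination (-(2 : ℂ)⁻¹) * Complex.I_mul_I
    have h4 : m - adj sg m + (m + adj sg m) = (2 : ℂ) • m := by
      rw [two_smul]
      abel
    rw [smul_smul, h3, ← smul_add, h4, smul_smul, inv_mul_cancel₀ (two_ne_zero), one_smul]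

end mat

/-! ### The combinations with coefficients in `ℚ[z]` -/

/-- the span of the products of the elements of `𝔮` with polynomials in `z` -/
def FM (z : Module.End ℚ A.H1) (𝔮 : Submodule ℚ (Module.End ℚ A.H1)) :
    Submodule ℚ (Module.End ℚ A.H1) :=
  Submodule.span ℚ {T | ∃ (q : ℚ[X]) (s : Module.End ℚ A.H1), s ∈ 𝔮 ∧ T = aeval z q * s}

theorem FM_mul {𝔮 : Submodule ℚ (Module.End ℚ A.H1)} (hz : z ∈ A.EA) (hq : 𝔮 ≤ A.NA) :
    ∀ d ∈ FM z 𝔮, ∀ r : ℚ[X], d * aeval z r ∈ FM z 𝔮 := by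
  intro d hd r
  unfold FM at hd
  induction hd using Submodule.span_induction with
  | mem d hd =>
    obtain ⟨q, s, hs, rfl⟩ := hd
    refine Submodule.subset_span ⟨r * q, s, hs, ?_⟩
    have hc : ∀ r : ℚ[X], s * aeval z r = aeval z r * s := by
      intro r
      have h1 : s * z = z * s := A.NA_comm (hq hs) hz
      induction r using Polynomial.induction_on' with
      | add p q hp hq => rw [map_add, mul_add, add_mul, hp, hq]
      | monomial n a =>
        have h2 : s * z ^ n = z ^ n * s := (Commute.pow_right (show Commute s z from h1) n).eq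
        rw [aeval_monomial, ← Algebra.smul_def, mul_smul_comm, smul_mul_assoc, h2]
    rw [mul_assoc, hc, ← mul_assoc, aeval_comm, map_mul]
  | zero =>
    rw [zero_mul]
    exact Submodule.zero_mem _
  | add a b _ _ ha hb =>
    rw [add_mul]
    exact Submodule.add_mem _ ha hb
  | smul c a _ ha =>
    rw [smul_mul_assoc]
    exact Submodule.smul_mem _ _ ha

theorem le_FM (z : Module.End ℚ A.H1) (𝔮 : Submodule ℚ (Module.End ℚ A.H1)) : 𝔮 ≤ FM z 𝔮 :=
  fun s hs => Submodule.subset_span ⟨1, s, hs, by rw [map_one, one_mul]⟩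

/-- **From one place to the rational algebra.** -/
theorem rat_of_one {al : ℝ} (h : HQ A z al) {N : ℕ} {sg : Fin N → ℝ}
    {φ : VN N →ₗ[ℝ] (Fin g → ℂ)} (w : WN A z al N sg φ) (hmx : Mixed sg) (hF : FieldIm z)
    {𝔮 : Submodule ℚ (Module.End ℚ A.H1)} (hq : A.Full 𝔮) (hB : Big sg (rN A (der 𝔮) φ))
    {X Y : Module.End ℚ A.H1} (hX : X ∈ CB A) (hY : Y ∈ CB A) :
    ∃ W ∈ FM z 𝔮, (X * Y - Y * X) * z = W * z := by
  obtain ⟨m, hm⟩ := N383.LCU.mat_CB h w hX
  obtain ⟨m', hm'⟩ := N383.LCU.mat_CB h w hY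
  have ht : (m * m' - m' * m).trace = 0 := by
    rw [Matrix.trace_sub, Matrix.trace_mul_comm, sub_self]
  obtain ⟨a, b, ha, ha', hb, hb', hab⟩ := dec_skew w.isSg ht
  obtain ⟨y1, hy1, e1⟩ := N441.BGSJ.full_mem N749.BGSU.main w.isSg hmx hB ha ha'
  obtain ⟨y2, hy2, e2⟩ := N441.BGSJ.full_mem N749.BGSU.main w.isSg hmx hB hb hb'
  have hCB : X * Y - Y * X ∈ CB A :=
    (CB A).sub_mem (N768.BGPD.CB_mul hX hY) (N768.BGPD.CB_mul hY hX)
  have hle : der 𝔮 ≤ FM z 𝔮 := hq.der_le.trans (le_FM z 𝔮)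
  have hFM := FM_mul h.mem hq.le
  have hFMz : ∀ d ∈ FM z 𝔮, d * z ∈ FM z 𝔮 := fun d hd => by
    have h1 := hFM d hd Polynomial.X
    rwa [aeval_X] at h1
  have hW : y1 + al⁻¹ • (y2 * A.ext z) ∈ spE A (FM z 𝔮 : Set (Module.End ℚ A.H1)) := by
    refine Submodule.add_mem _ (N441.BGSJ.spE_mono hle hy1) (Submodule.smul_mem _ _ ?_)
    have h1 := mul_aeval_mem hFMz (N441.BGSJ.spE_mono hle hy2) Polynomial.X
    rwa [aeval_X] at h1
  have hzP : ∀ P ∈ A.EA, A.ext z * A.ext P = A.ext P * A.ext z := fun P hP => by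
    rw [← Pool.Agent.N208.AD.ext_mul, ← Pool.Agent.N208.AD.ext_mul, h.cen P hP]
  have hyN1 := N441.BGSJ.der_spE hq hy1
  have hyN2 := N441.BGSJ.der_spE hq hy2
  have hV := w.gen (A.ext (X * Y - Y * X) - (y1 + al⁻¹ • (y2 * A.ext z)))
    (fun P hP => by
      rw [sub_mul, mul_sub, add_mul, mul_add, N441.BGSJ.spE_comm hyN1 hP, smul_mul_assoc,
        mul_smul_comm, mul_assoc, hzP P hP, ← mul_assoc y2, N441.BGSJ.spE_comm hyN2 hP, mul_assoc,
        ← Pool.Agent.N208.AD.ext_mul (X * Y - Y * X), ← Pool.Agent.N208.AD.ext_mul P, hCB P hP])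
    (fun x => by
      have f1 : A.ext (X * Y - Y * X) (φ x) = φ ((m * m' - m' * m) *ᵥ x) := by
        rw [Pool.Agent.N208.AD.ext_sub, Pool.Agent.N208.AD.ext_mul, Pool.Agent.N208.AD.ext_mul,
          LinearMap.sub_apply, Module.End.mul_apply, Module.End.mul_apply, hm', hm, hm, hm',
          ← map_sub, Matrix.mulVec_mulVec, Matrix.mulVec_mulVec, ← Matrix.sub_mulVec]
      have f2 : al⁻¹ • (y2 * A.ext z) (φ x) = φ (Complex.I • (b *ᵥ x)) := by
        have e2' : ∀ x, y2 (φ x) = φ (b *ᵥ x) := e2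
        rw [Module.End.mul_apply, N999.BGSL.act_z h w, e2', Matrix.mulVec_smul, ← map_smul]
        congr 1
        have h3 : ((al : ℂ))⁻¹ * (al * Complex.I) = Complex.I := by
          rw [← mul_assoc, inv_mul_cancel₀ (Complex.ofReal_ne_zero.2 h.ne), one_mul]
        have h4 : ∀ v : VN N, al⁻¹ • v = ((al : ℂ)⁻¹) • v := fun v => by
          rw [← Complex.ofReal_inv, Complex.coe_smul]
        rw [h4, smul_smul, h3]
      rw [LinearMap.sub_apply, LinearMap.add_apply, LinearMap.smul_apply, f1, f2, e1, hab,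
        Matrix.add_mulVec, Matrix.smul_mulVec, map_add, sub_self])
  refine desc h hF hFMz ?_ hFM hW fun x hx => ?_
  · exact hCB z h.mem
  · have h1 := hV x hx
    rw [LinearMap.sub_apply, sub_eq_zero] at h1
    exact h1

/-- **From the rational algebra to a place.** -/
theorem big_at {al : ℝ} (h : HQ A z al) {N : ℕ} {sg : Fin N → ℝ}
    {φ : VN N →ₗ[ℝ] (Fin g → ℂ)} (w : WN A z al N sg φ)
    {𝔮 : Submodule ℚ (Module.End ℚ A.H1)} (hq : A.Full 𝔮)
    (hrat : ∀ X ∈ CB A, ∀ Y ∈ CB A, ∃ W ∈ FM z 𝔮, (X * Y - Y * X) * z = W * z) :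
    Big sg (rN A (der 𝔮) φ) := by
  have hR := N755.BGRR.main g A z al h N sg φ w 𝔮 hq
  let MS : Submonoid (MN N) :=
    { carrier := {m | ∃ X ∈ CB A, ∀ x, A.ext X (φ x) = φ (m *ᵥ x)}
      one_mem' := ⟨1, N768.BGPD.CB_one, fun x => by
        rw [N768.BGPD.ext_one, Module.End.one_apply, Matrix.one_mulVec]⟩
      mul_mem' := by
        rintro a b ⟨X, hX, e⟩ ⟨Y, hY, e'⟩
        exact ⟨X * Y, N768.BGPD.CB_mul hX hY, fun x => by
          rw [Pool.Agent.N208.AD.ext_mul, Module.End.mul_apply, e', e, Matrix.mulVec_mulVec]⟩ }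
  refine N768.BG.long_root w.pos w.isSg hR.sk (fun X hX => N441.BGSJ.trace_zero hR hX) MS
    (fun U hU => ?_) ?_
  · refine w.simple U fun X hX x hx y hxy => ?_
    obtain ⟨m, hm⟩ := N768.BGPD.mat_CB h w hq (N768.BGPD.NA_CB hX)
    have h1 := hU m ⟨X, N768.BGPD.NA_CB hX, hm⟩ x hx
    rw [hm] at hxy
    rwa [← w.inj hxy]
  · rintro a ⟨X, hX, e⟩ b ⟨Y, hY, e'⟩
    obtain ⟨W, hW, hWe⟩ := hrat X hX Y hY
    obtain ⟨m, hm, em⟩ := N768.BGPD.mat_T h w hq hW
    have h1 : a * b - b * a = m := by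
      refine N768.BGPD.mat_unique h w fun u => ?_
      rw [← em, ← N768.BGPD.ext_gen h w hWe, Pool.Agent.N208.AD.ext_sub,
        Pool.Agent.N208.AD.ext_mul, Pool.Agent.N208.AD.ext_mul, LinearMap.sub_apply,
        Module.End.mul_apply, Module.End.mul_apply, e, e', e, e', ← map_sub,
        Matrix.mulVec_mulVec, Matrix.mulVec_mulVec, ← Matrix.sub_mulVec]
    rw [h1]
    exact hm

/-- **From one place to all places.** -/
theorem big_of_one {al be : ℝ} (h : HQ A z al) {N : ℕ} {sg : Fin N → ℝ}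
    {φ : VN N →ₗ[ℝ] (Fin g → ℂ)} (w : WN A z al N sg φ) (hmx : Mixed sg) (hF : FieldIm z)
    {𝔮 : Submodule ℚ (Module.End ℚ A.H1)} (hq : A.Full 𝔮) (hB : Big sg (rN A (der 𝔮) φ))
    (h' : HQ A z be) {N' : ℕ} {sg' : Fin N' → ℝ} {φ' : VN N' →ₗ[ℝ] (Fin g → ℂ)}
    (w' : WN A z be N' sg' φ') : Big sg' (rN A (der 𝔮) φ') :=
  big_at h' w' hq fun _ hX _ hY => rat_of_one h w hmx hF hq hB hX hY

/-! ### The hypothesis -/

/-- `z` is a central skew-symmetric endomorphism, `ℚ[z]` is a field on the image of `z`. The eigenspace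
of `i al` on the tangent space is a simple module over the endomorphisms. The signatures at the places
of `Sg` are indefinite. Every algebra `D₁` of endomorphisms of the homology, which commutes with the
endomorphisms of `A` and generates their commutant together with `z` (on the image of `z`), contains
polynomials in `z` which separate `i a` and `i b`, `± a ∈ Sg`, `± b ∈ Sg`, `a ≠ ± b`, and which
separate `i al` and `- i al`. -/
structure HO (A : AbVar g) (z : Module.End ℚ A.H1) (al : ℝ) (Sg : Finset ℝ) : Prop where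
  mem : z ∈ A.EA
  cen : ∀ P ∈ A.EA, z * P = P * z
  skew : IsSkew A.om z
  gen : ∀ P ∈ A.EA, (∀ Q ∈ A.EA, P * Q = Q * P) → ∃ q : ℚ[X], P * z = aeval z q * z
  fld : FieldIm z
  al_mem : al ∈ Sg
  ne : ∀ a ∈ Sg, a ≠ 0
  e1 : ∀ a ∈ Sg, ∃ x, x ≠ 0 ∧ Eig A z a x
  e2 : ∀ a ∈ Sg, ∃ x, x ≠ 0 ∧ Eig A z (-a) x
  disj : ∀ a ∈ Sg, -a ∉ Sg
  simple : ∀ x y, x ≠ 0 → Eig A z al x → Eig A z al y →
    y ∈ Submodule.span ℂ {w | ∃ P ∈ A.EA, w = A.ext P x}
  sep : ∀ D₁ : Subalgebra ℚ (Module.End ℚ A.H1), (∀ X ∈ D₁, X ∈ CB A) →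
    (∀ X ∈ CB A, ∃ X' ∈ Algebra.adjoin ℚ ((D₁ : Set (Module.End ℚ A.H1)) ∪ {z}),
      X * z = X' * z) →
    ∀ a b : ℝ, (a ∈ Sg ∨ -a ∈ Sg) → (b ∈ Sg ∨ -b ∈ Sg) → a ≠ b → (a ≠ -b ∨ a = al ∨ a = -al) →
      ∃ (q : ℚ[X]), ∃ X ∈ D₁, X * z = aeval z q * z ∧
        aeval ((a : ℂ) * Complex.I) q ≠ aeval ((b : ℂ) * Complex.I) q

theorem HO.hq {al : ℝ} {Sg : Finset ℝ} (h : HO A z al Sg) {a : ℝ} (ha : a ∈ Sg) : HQ A z a where
  mem := h.mem
  cen := h.cen
  skew := h.skew
  gen := h.gen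
  ne := h.ne a ha
  ex := by
    obtain ⟨x, hx, hxe⟩ := h.e1 a ha
    exact ⟨x, eig_mem_V0 h.mem rfl hxe, hx⟩

theorem HO.hb {al : ℝ} {Sg : Finset ℝ} (h : HO A z al Sg) : HB A z {al} where
  hp := by
    intro a ha
    rw [Finset.mem_singleton] at ha
    subst ha
    exact ⟨h.mem, h.cen, h.skew, h.gen, h.ne a h.al_mem, h.e1 a h.al_mem, h.simple⟩
  disj := by
    intro a ha hb
    rw [Finset.mem_singleton] at ha hb
    subst ha
    have h1 := h.ne a h.al_mem
    have h2 : a = 0 := by linarith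
    exact h1 h2
  sep := by
    intro D₁ h1 h2 a b ha hb hne
    rw [Finset.mem_singleton, Finset.mem_singleton] at ha hb
    refine h.sep D₁ h1 h2 a b ?_ ?_ hne ?_
    · rcases ha with ha | ha
      · exact Or.inl (ha ▸ h.al_mem)
      · exact Or.inr (ha ▸ h.al_mem)
    · rcases hb with hb | hb
      · exact Or.inl (hb ▸ h.al_mem)
      · exact Or.inr (hb ▸ h.al_mem)
    · rcases ha with ha | ha
      · exact Or.inr (Or.inl ha)
      · exact Or.inr (Or.inr (by rw [← ha, neg_neg]))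

/-- **All full subalgebras contain the long roots at all places of `Sg`.** -/
theorem HO.hg {al : ℝ} {Sg : Finset ℝ} (h : HO A z al Sg) : HG A z Sg where
  hq := fun _ ha => h.hq ha
  disj := h.disj
  sep := fun D₁ h1 h2 a b ha hb hne hne' => h.sep D₁ h1 h2 a b ha hb hne (Or.inl hne')
  big := by
    intro a ha N sg φ w
    have h0 := N521.LCHBG.main g A z {al} h.hb (by
      intro a ha
      rw [Finset.mem_singleton] at ha
      subst ha
      exact h.e2 a h.al_mem)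
    obtain ⟨W, hW⟩ := N755.BGWA.main g A z al (h.hq h.al_mem)
    obtain ⟨N0, sg0, φ0, w0⟩ := N455.BGWB.main g A z al (h.hq h.al_mem) W hW
    have h1 := h0.big al (Finset.mem_singleton_self al) N0 sg0 φ0 w0
    exact ⟨mixed_of (h.hq ha) (h.e1 a ha) (h.e2 a ha) w, fun 𝔮 hq =>
      big_of_one (h.hq h.al_mem) w0 h1.1 h.fld hq (h1.2 𝔮 hq) (h.hq ha) w⟩

end Run7.h2.OB
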