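import Pool.Agent.N208.CT.Main
import Pool.Agent.Run7.h2.OB.Pl

set_option autoImplicit false

/-!
# Products of abelian varieties of unitary types: the definitions

See `Pool/Agent/Results/MP_caab05_ag/ProductsOfUnitaryTypes.lean`.
-/

open Module Matrix Pool.Agent.Y102 Pool.Agent.W516.DR Pool.Agent.H204R3.GP

noncomputable section

namespace Run7.h2.OB.PU

variable {g : ℕ} (A : AbVar g)

/-! ### The part of the abelian variety -/

/-- `P` is an endomorphism of `A` (up to isogeny), in terms of its action on `H_1(A, ℚ)`: it respects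
the de Rham structure. (By the theorem of Bost, which is proved in `Pool.Agent.Y102.AbVar.hodge_end`,
these are the elements of `End(A) ⊗ ℚ`.) -/
def IsEndo (P : Module.End ℚ A.H1) : Prop := IsDeRhamBettiEnd QBar A.dR P

/-- The endomorphism `X` of `H_1(A, ℚ)` commutes with the endomorphisms of `A`. -/
def Commutes (X : Module.End ℚ A.H1) : Prop := ∀ P, IsEndo A P → X * P = P * X

/-- `x` is an eigenvector of `z` for the eigenvalue `i a` (or zero); here `H_1(A, ℝ) = ℂ ^ g` is the
tangent space, and `A.ext z` is the real linear extension of `z`. -/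
def Eigen (z : Module.End ℚ A.H1) (a : ℝ) (x : Fin g → ℂ) : Prop :=
  A.ext z x = ((a : ℂ) * Complex.I) • x

/-- The restriction of the endomorphism `X` to the image of `z` is `q(z)`. -/
def IsPoly (z X : Module.End ℚ A.H1) (q : Polynomial ℚ) : Prop :=
  X * z = Polynomial.aeval z q * z

/-- The value `q(i a)` of the polynomial `q`. -/
def value (a : ℝ) (q : Polynomial ℚ) : ℂ := Polynomial.aeval ((a : ℂ) * Complex.I) q

/-- The subalgebras of the algebra of the endomorphisms of `H_1(A, ℚ)`. -/
abbrev SubAlg : Type := Subalgebra ℚ (Module.End ℚ A.H1)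

/-- `X` is an element of `B₁`. -/
def Mem (B₁ : SubAlg A) (X : Module.End ℚ A.H1) : Prop := X ∈ B₁

/-- `X` is an element of the algebra generated by `B₁` and the set `C`. -/
def Generated (B₁ : SubAlg A) (C : Set (Module.End ℚ A.H1)) (X : Module.End ℚ A.H1) : Prop :=
  X ∈ Algebra.adjoin ℚ ((B₁ : Set (Module.End ℚ A.H1)) ∪ C)

/-- **The separation.** If the subalgebra `B₁` generates together with `z` the algebra of all
endomorphisms which commute with the endomorphisms of `A` (on the image of `z`), then `B₁` contains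
(on the image of `z`) a polynomial in `z` which separates the numbers `i a` and `i b`. -/
def Separates (z : Module.End ℚ A.H1) (a b : ℝ) : Prop :=
  ∀ B₁ : SubAlg A, (∀ X, Mem A B₁ X → Commutes A X) →
    (∀ X, Commutes A X → ∃ X', Generated A B₁ {z} X' ∧ X * z = X' * z) →
    ∃ q X, Mem A B₁ X ∧ IsPoly A z X q ∧ value a q ≠ value b q

/-- `z` is an endomorphism in the centre of the algebra of the endomorphisms, it is skew-symmetric for the
polarization, and the elements of the centre are polynomials in `z` on the image of `z`. -/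
structure CentralPart (z : Module.End ℚ A.H1) : Prop where
  endo : IsEndo A z
  central : ∀ P, IsEndo A P → z * P = P * z
  skew : ∀ u v, A.om (z u) v + A.om u (z v) = 0
  generates : ∀ P, IsEndo A P → (∀ Q, IsEndo A Q → P * Q = Q * P) → ∃ q, IsPoly A z P q

/-- The numbers `i a`, `a ∈ S`, are different from zero and not conjugate to each other, and `i a` and
`- i a` are eigenvalues of `z` on the tangent space. -/
structure Indefinite (z : Module.End ℚ A.H1) (S : Finset ℝ) : Prop where
  disjoint : ∀ a ∈ S, a ≠ 0 ∧ -a ∉ S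
  indefinite : ∀ a ∈ S, (∃ x, x ≠ 0 ∧ Eigen A z a x) ∧ ∃ x, x ≠ 0 ∧ Eigen A z (-a) x

/-- `ℚ[z]` is a field on the image of `z`: a polynomial in `z` which is not zero on the image of `z` is
injective there. -/
def IsFieldPart (z : Module.End ℚ A.H1) : Prop :=
  ∀ q : Polynomial ℚ, (∀ v, Polynomial.aeval z q (z v) = 0 → z v = 0) ∨
    ∀ v, Polynomial.aeval z q (z v) = 0

/-- The commutant of the endomorphisms is a division algebra on the image of `z`: if `X` is not zero on
the image of `z` then it is injective there. -/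
def IsDivision (z : Module.End ℚ A.H1) : Prop :=
  ∀ X, Commutes A X → (∀ v, X (z v) = 0 → z v = 0) ∨ ∀ v, X (z v) = 0

/-- The commutant of the endomorphisms (restricted to the image of `z`) is of dimension `p ^ 2` over its
centre `ℚ[z]`: the space of the `X z` has dimension `p ^ 2` times the dimension of the space of
the `q(z) z`. -/
def HasDegree (z : Module.End ℚ A.H1) (p : ℕ) : Prop :=
  Set.finrank ℚ {Y | ∃ X, Commutes A X ∧ Y = X * z} =
    p ^ 2 * Set.finrank ℚ {Y | ∃ X q, IsPoly A z X q ∧ Y = X * z}

/-- **A ball place**: the signature is `(1, n)`, that is, the eigenspace of `i a` on the tangent space is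
a simple module over the algebra of the endomorphisms; and `i a` and `- i a` are separated. -/
structure BallPlace (z : Module.End ℚ A.H1) (a : ℝ) : Prop where
  simple : ∀ x y, x ≠ 0 → Eigen A z a x → Eigen A z a y →
    y ∈ Submodule.span ℂ {w | ∃ P, IsEndo A P ∧ w = A.ext P x}
  separated : Separates A z a (-a)

/-- **A unitary part**: at the places of the finite set `S` the signatures are indefinite, the numbers
`± i a` and `± i b` are separated for different `a`, `b` in `S`, and all places of `S` are ball places,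
or one place of `S` is a ball place and `ℚ[z]` is a field, or the commutant of the endomorphisms is a
division algebra of a prime degree. -/
structure UnitaryPart (z : Module.End ℚ A.H1) (S : Finset ℝ) : Prop where
  /-- `z` is central and skew-symmetric and it generates the centre on its image -/
  part : CentralPart A z
  /-- the places -/
  places : Indefinite A z S
  /-- the separation of different places -/
  separated : ∀ a b : ℝ, (a ∈ S ∨ -a ∈ S) → (b ∈ S ∨ -b ∈ S) → a ≠ b → a ≠ -b → Separates A z a b
  /-- the type -/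
  type : (∀ a ∈ S, BallPlace A z a) ∨ (IsFieldPart A z ∧ ∃ a ∈ S, BallPlace A z a) ∨
    ∃ p : ℕ, p.Prime ∧ IsDivision A z ∧ HasDegree A z p

/-- `Z` is an element of the centre of the algebra of the endomorphisms. -/
def IsCentral (Z : Module.End ℚ A.H1) : Prop := IsEndo A Z ∧ Commutes A Z

/-- **The separation of two parts.** If the subalgebra `B₁` generates together with the centre of the
algebra of the endomorphisms the algebra of all endomorphisms of `H_1(A, ℚ)` which commute with the
endomorphisms of `A`, then `B₁` contains an element which acts as `q(z)` on the image of `z` and as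
`q'(z')` on the image of `z'`, with `q(i a) ≠ q'(i b)`. -/
def SeparatesTwo (z z' : Module.End ℚ A.H1) (a b : ℝ) : Prop :=
  ∀ B₁ : SubAlg A, (∀ X, Mem A B₁ X → Commutes A X) →
    (∀ X, Commutes A X → Generated A B₁ {Z | IsCentral A Z} X) →
    ∃ q q' X, Mem A B₁ X ∧ IsPoly A z X q ∧ IsPoly A z' X q' ∧ value a q ≠ value b q'

/-- **Several unitary parts**, which are separated from each other. -/
structure UnitaryParts {k : ℕ} (z : Fin k → Module.End ℚ A.H1) (S : Fin k → Finset ℝ) : Prop where
  part : ∀ j, UnitaryPart A (z j) (S j)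
  separated : ∀ i j, i ≠ j → ∀ a b : ℝ, (a ∈ S i ∨ -a ∈ S i) → b ∈ S j →
    SeparatesTwo A (z i) (z j) a b

/-! ### The Lie algebra -/

/-- The multilinear forms in `2m` variables in the rational homology. -/
abbrev Form (m : ℕ) : Type := MultilinearMap ℚ (fun _ : Fin m × Fin 2 => A.H1) ℚ

/-- `φ` is a de Rham-Betti class in `H^1(A) ^ {⊗ 2m} (m)`. -/
def IsDRB {m : ℕ} (φ : Form A m) : Prop :=
  IsDeRhamBettiForm QBar A.dR (2 * Real.pi * Complex.I) m φ

/-- `φ` is a Hodge class in `H^1(A) ^ {⊗ 2m} (m)`. -/
def IsHodge {m : ℕ} (φ : Form A m) : Prop := IsHodgeTensor (A.per : A.H1 →+ (Fin g → ℂ)) φ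

/-- The endomorphism `X` annihilates the form `φ` (as a derivation). -/
def Annihilates {m : ℕ} (X : Module.End ℚ A.H1) (φ : Form A m) : Prop :=
  ∀ v, ∑ k, φ (Function.update v k (X (v k))) = 0

/-- `X` is in the Lie algebra `𝔤`: it annihilates all classes that are Hodge classes and
de Rham-Betti classes. -/
def InLie (X : Module.End ℚ A.H1) : Prop :=
  ∀ (m : ℕ) (φ : Form A m), IsHodge A φ → IsDRB A φ → Annihilates A X φ

/-! ### Motives -/

variable {s n : ℕ} (r : Fin s → ℕ) (w : Fin s → ℤ)

/-- The Betti realization of the sum of the motives `h^1(A) ^ {⊗ r i} (w i)`: families of multilinear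
forms in `r i` variables in the rational homology. -/
abbrev Tensors : Type := ∀ i : Fin s, MultilinearMap ℚ (fun _ : Fin (r i) => A.H1) ℚ

variable {A r}

/-- `M` is the matrix of the action of the endomorphism `X` of the rational homology of `A` (as a
derivation) on the space of tensors with the basis `B`. -/
def IsLieMatrix (B : Fin n → Tensors A r) (X : Module.End ℚ A.H1)
    (M : Matrix (Fin n) (Fin n) ℚ) : Prop :=
  ∀ a i v, ∑ k, B a i (Function.update v k (X (v k))) = ∑ b, M b a * B b i v

/-- The subspace with the basis `B` is the Betti realization of a direct factor `M` of the sum of the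
motives `h^1(A) ^ {⊗ r i} (w i)`, and `P` is the matrix of the periods of `M` for the basis `B` and for
some basis of the de Rham realization of `M` over `ℚ̄`. -/
structure IsMotive (B : Fin n → Tensors A r) (P : Matrix (Fin n) (Fin n) ℂ) : Prop where
  /-- `B` is a basis of a subspace -/
  basis : LinearIndependent ℚ B
  /-- the subspace is stable under `𝔤` -/
  lie : ∀ X, InLie A X → ∃ M : Matrix (Fin n) (Fin n) ℚ, IsLieMatrix B X M
  /-- the subspace is stable under the weights -/
  weight : ∃ M : Matrix (Fin n) (Fin n) ℚ, ∀ a i v,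
    ((r i : ℚ) - 2 * w i) * B a i v = ∑ b, M b a * B b i v
  /-- the de Rham realization has a basis of elements with algebraic coefficients in terms of the
  tensor products of the elements of the basis of `H^1_dR(A / ℚ̄)` -/
  deRham : ∃ c : Fin n → ∀ i : Fin s, (Fin (r i) → Fin g ⊕ Fin g) → ℂ,
    (∀ a i J, IsAlgebraic ℚ (c a i J)) ∧ ∀ a i (v : Fin (r i) → A.H1),
      ∑ J, c a i J * ∏ k, A.dR (J k) (v k) =
        (2 * Real.pi * Complex.I) ^ (w i) * ∑ b, P b a * (B b i v : ℂ)
  /-- the matrix of the periods is invertible -/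
  det : P.det ≠ 0

/-! ### The Mumford-Tate domain -/

/-- `N` is the matrix of the action on `M` of the multiplication with `i` on `H_1(A, ℝ) = ℂ ^ g` (as a
derivation): the generator of the Lie algebra of the circle in the Hodge structure of `M`. -/
def IsComplexStructure (B : Fin n → Tensors A r) (N : Matrix (Fin n) (Fin n) ℝ) : Prop :=
  ∀ a i (j : Fin (r i) → Fin (2 * g)),
    ∑ k, ∑ l : Fin (2 * g), A.lam.repr (Complex.I • A.lam (j k)) l *
        (B a i (Function.update (fun p => Pi.single (j p) 1) k (Pi.single l 1)) : ℝ) =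
      ∑ b, N b a * (B b i (fun p => Pi.single (j p) 1) : ℝ)

variable (A) in
/-- The derived algebra `[𝔤, 𝔤]`. -/
def derivedLie : Submodule ℚ (Module.End ℚ A.H1) :=
  Submodule.span ℚ {Z | ∃ X, InLie A X ∧ ∃ Y, InLie A Y ∧ Z = X * Y - Y * X}

/-- The part of the Hodge group which acts trivially on the eigenspaces of the `z j` for `± i a`,
`a ∈ S j`, acts trivially on the Mumford-Tate domain of `M`: if an element of `[𝔤, 𝔤] ⊗ ℝ`, which acts
on `H_1(A, ℝ) = ℂ ^ g` by `p.1` and on `M` by `p.2`, acts trivially on these eigenspaces, then `p.2`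
commutes with the complex structure `N` of `M`. -/
def DomainOf {k : ℕ} (z : Fin k → Module.End ℚ A.H1) (S : Fin k → Finset ℝ)
    (B : Fin n → Tensors A r) (N : Matrix (Fin n) (Fin n) ℝ) : Prop :=
  ∀ p ∈ Submodule.span ℝ {p : Module.End ℝ (Fin g → ℂ) × Matrix (Fin n) (Fin n) ℝ |
      ∃ X ∈ derivedLie A, ∃ M : Matrix (Fin n) (Fin n) ℚ, IsLieMatrix B X M ∧
        p = (A.ext X, M.map fun q => (q : ℝ))},
    (∀ j, ∀ a ∈ S j, ∀ x, Eigen A (z j) a x ∨ Eigen A (z j) (-a) x → p.1 x = 0) →
      p.2 * N = N * p.2

/-- The Lie algebra of the Hodge group of `M`: the smallest rational Lie algebra whose real span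
contains the complex structure `N`. -/
def hodgeLie (N : Matrix (Fin n) (Fin n) ℝ) : Submodule ℚ (Matrix (Fin n) (Fin n) ℚ) :=
  sInf {L | (∀ x ∈ L, ∀ y ∈ L, x * y - y * x ∈ L) ∧
    N ∈ Submodule.span ℝ {M | ∃ x ∈ L, M = x.map fun q => (q : ℝ)}}

/-- The derived algebra. -/
def derived (L : Submodule ℚ (Matrix (Fin n) (Fin n) ℚ)) :
    Submodule ℚ (Matrix (Fin n) (Fin n) ℚ) :=
  Submodule.span ℚ {z | ∃ x ∈ L, ∃ y ∈ L, z = x * y - y * x}

/-- The centre of the Lie algebra acts trivially: an element of `𝔤` which acts on `M` like a central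
element acts trivially. -/
def CentreActsTrivially (B : Fin n → Tensors A r) : Prop :=
  ∀ X, InLie A X → (∀ Y, InLie A Y → IsLieMatrix B (X * Y - Y * X) 0) → IsLieMatrix B X 0

/-! ### The centre -/

variable (A) in
/-- The algebra of the endomorphisms of `H_1(A, ℂ)`, as matrices for the basis of the lattice. -/
def toC (X : Module.End ℚ A.H1) : Matrix (Fin (2 * g)) (Fin (2 * g)) ℂ :=
  Matrix.of fun i j => (X (Pi.single j 1) i : ℂ)

variable (A) in
/-- `X` is an element of the centre of `𝔤`. -/
def InCentre (X : Module.End ℚ A.H1) : Prop := InLie A X ∧ ∀ Y, InLie A Y → Y * X = X * Y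

variable (A) in
/-- The endomorphisms which commute with `X` and with the derived algebra of `𝔤` commute with the
centre of `𝔤`. -/
def Generates (X : Module.End ℚ A.H1) : Prop :=
  ∀ T : Module.End ℚ A.H1,
    (∀ Y, InLie A Y → ∀ Z, InLie A Z → T * (Y * Z - Z * Y) = (Y * Z - Z * Y) * T) →
    T * X = X * T → ∀ Z, InCentre A Z → T * Z = Z * T

variable (A) in
/-- All relations `∑ i, x i = 0` between eigenvalues of `X` imply the relation `∑ i, y i = 0` between
the eigenvalues of `Y` for the same eigenvectors. -/
def RelationsOf (X Y : Module.End ℚ A.H1) : Prop :=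
  ∀ (r : ℕ) (v : Fin r → Fin (2 * g) → ℂ) (x y : Fin r → ℂ),
    (∀ i, v i ≠ 0 ∧ Matrix.mulVec (toC A X) (v i) = x i • v i ∧
      Matrix.mulVec (toC A Y) (v i) = y i • v i) → ∑ i, x i = 0 → ∑ i, y i = 0

variable (A) in
/-- The centre of `𝔤` is rigid: the relations between the eigenvalues of a generating element of the
centre hold for all elements of the centre. -/
def RigidCentre : Prop :=
  ∀ X, InCentre A X → Generates A X → ∀ Y, InCentre A Y → RelationsOf A X Y

/-! ### Algebraic groups, torsors and the Mumford-Tate group -/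

/-- A subgroup of `GL_R(ℂ)` defined by polynomials with rational coefficients. -/
def IsAlgebraicSubgroup {R : Type} [Fintype R] [DecidableEq R] (G : Subgroup (GL R ℂ)) : Prop :=
  ∃ I : Set (MvPolynomial (R × R) ℚ), ∀ x : GL R ℂ, x ∈ G ↔
    ∀ p ∈ I, MvPolynomial.aeval (fun b : R × R => (x : Matrix R R ℂ) b.1 b.2) p = 0

/-- The torsor `G · T⁻¹` of `G`: the matrices `F` such that `F T` is an element of `G`. It is
defined over `ℚ̄` if `T` is a matrix with algebraic entries. -/
def torsor (G : Subgroup (GL (Fin n) ℂ)) (T : Matrix (Fin n) (Fin n) ℂ) :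
    Set (Matrix (Fin n) (Fin n) ℂ) :=
  {F | ∃ x ∈ G, (x : Matrix (Fin n) (Fin n) ℂ) = F * T}

variable (A) in
/-- The Hodge structure of `H^1(A)`: the complex number `z` acts on `H_1(A, ℝ) = ℂ ^ g` by
multiplication, and on `H^1(A, ℝ)` by the transposed map, here in the basis of `H^1(A, ℚ)` which is
dual to the basis of the lattice. -/
def hodge (z : ℂ) : Matrix (Fin (2 * g)) (Fin (2 * g)) ℂ :=
  Matrix.of fun i j => ((A.lam.repr (z • A.lam i) j : ℝ) : ℂ)

/-- `R` is the matrix of the action of the complex number `z` on `M`, in the Hodge structure given by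
those of `H^1(A)` and of the Tate motives (`z` acts on `ℚ(1)` by `(z z̄)⁻¹`). -/
def IsHodgeMatrix (B : Fin n → Tensors A r) (z : ℂ) (R : Matrix (Fin n) (Fin n) ℂ) : Prop :=
  ∀ a i (j : Fin (r i) → Fin (2 * g)),
    ∑ j' : Fin (r i) → Fin (2 * g), (∏ k, hodge A z (j k) (j' k)) *
        (B a i (fun k => Pi.single (j' k) 1) : ℂ) =
      (z * (starRingEnd ℂ) z) ^ (w i) * ∑ b, R b a * (B b i (fun k => Pi.single (j k) 1) : ℂ)

/-- The Mumford-Tate group of `M`: the smallest algebraic group over `ℚ` which contains the image of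
the Deligne torus. -/
def mumfordTate (B : Fin n → Tensors A r) : Subgroup (GL (Fin n) ℂ) :=
  sInf {G | IsAlgebraicSubgroup G ∧ ∀ z : ℂ, z ≠ 0 → ∃ x ∈ G,
    IsHodgeMatrix w B z (x : Matrix (Fin n) (Fin n) ℂ)}

end Run7.h2.OB.PU
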