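import Pool.Agent.Run7.h2.OB.GJ

set_option autoImplicit false
set_option linter.unusedSectionVars false

/-!
# Separation excludes links between places of two central endomorphisms

This generalizes the statement `G_SL` of project BT of helper208 (proved by helper999).
-/

open Module Matrix

noncomputable section

namespace Run7.h2.OB

open Pool.Agent Pool.Agent.Y102 Pool.Agent.N208.BT Pool.Agent.N208.AD Pool.Agent.N999.BGSL

variable {g : ℕ} {A : AbVar g} {𝔮 : Submodule ℚ (Module.End ℚ A.H1)} {z z' : Module.End ℚ A.H1}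

/-- the central endomorphisms -/
def CZ (A : AbVar g) : Set (Module.End ℚ A.H1) := {Z | Z ∈ A.EA ∧ Z ∈ CB A}

theorem gen_cen (h : A.Full 𝔮) {X : Module.End ℚ A.H1} (hX : X ∈ CB A) :
    X ∈ Algebra.adjoin ℚ ((D1 𝔮 : Set (Module.End ℚ A.H1)) ∪ CZ A) := by
  have hXa : X ∈ Algebra.adjoin ℚ (𝔮 : Set (Module.End ℚ A.H1)) :=
    mem_adjoin_of_comm h.semi (fun P hP => hX P (mem_EA_of_comm h hP))
  refine Algebra.adjoin_le ?_ hXa
  intro Y hY
  obtain ⟨Z, hZ, d, hd, rfl, hZc⟩ := h.dec hY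
  have hZEA : Z ∈ A.EA := mem_EA_of_comm h fun Y hY => (hZc Y hY).symm
  refine add_mem (Algebra.subset_adjoin (Or.inr ⟨hZEA, fun P hP => A.NA_comm (h.le hZ) hP⟩)) ?_
  exact Algebra.subset_adjoin (Or.inl (Algebra.subset_adjoin hd))

/-- **Separation for two central endomorphisms.** -/
def SepTwo (A : AbVar g) (z z' : Module.End ℚ A.H1) (a b : ℝ) : Prop :=
  ∀ D₁ : Subalgebra ℚ (Module.End ℚ A.H1), (∀ X ∈ D₁, X ∈ CB A) →
    (∀ X ∈ CB A, X ∈ Algebra.adjoin ℚ ((D₁ : Set (Module.End ℚ A.H1)) ∪ CZ A)) →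
    ∃ (q q' : Polynomial ℚ), ∃ X ∈ D₁, X * z = Polynomial.aeval z q * z ∧
      X * z' = Polynomial.aeval z' q' * z' ∧
      Polynomial.aeval ((a : ℂ) * Complex.I) q ≠ Polynomial.aeval ((b : ℂ) * Complex.I) q'

/-- the elements of the algebra act by linked matrices -/
theorem adj_mats2 (τ : ℂ →+* ℂ) {al be : ℝ} (hz : HQ A z al) (hz' : HQ A z' be) {N N' : ℕ}
    {sg : Fin N → ℝ} {sg' : Fin N' → ℝ} {φ : VN N →ₗ[ℝ] (Fin g → ℂ)}
    {φ' : VN N' →ₗ[ℝ] (Fin g → ℂ)} (hW : WN A z al N sg φ) (hW' : WN A z' be N' sg' φ')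
    (h : A.Full 𝔮) {S : Matrix (Fin N') (Fin N) ℂ}
    (hS : ∀ p ∈ rN2 A (der 𝔮) φ φ', p.2 * S = S * p.1.map τ) :
    ∀ X ∈ D1 𝔮, ∃ (m : MN N) (m' : MN N'), (∀ x, A.ext X (φ x) = φ (m *ᵥ x)) ∧
      (∀ x, A.ext X (φ' x) = φ' (m' *ᵥ x)) ∧ m' * S = S * m.map τ := by
  intro X hX
  unfold D1 at hX
  induction hX using Algebra.adjoin_induction with
  | mem X hX =>
    obtain ⟨m, hm⟩ := exists_mat hz hW (h.le (h.der_le hX))
    obtain ⟨m', hm'⟩ := exists_mat hz' hW' (h.le (h.der_le hX))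
    exact ⟨m, m', hm, hm', hS (m, m') ⟨A.ext X, mem_spE hX, hm, hm'⟩⟩
  | algebraMap r =>
    refine ⟨(algebraMap ℚ ℂ r) • 1, (algebraMap ℚ ℂ r) • 1, fun x => ?_, fun x => ?_, ?_⟩
    · rw [ext_alg, scal_mulVec]
    · rw [ext_alg, scal_mulVec]
    · have h1 : (((algebraMap ℚ ℂ r) • (1 : MN N)).map τ) = (algebraMap ℚ ℂ r) • (1 : MN N) := by
        ext i j
        rw [Matrix.map_apply, Matrix.smul_apply, smul_eq_mul, map_mul, eq_ratCast, map_ratCast,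
          Matrix.one_apply]
        split_ifs
        · rw [map_one]
        · rw [map_zero]
      rw [h1, Matrix.smul_mul, Matrix.one_mul, Matrix.mul_smul, Matrix.mul_one]
  | add X Y _ _ hX hY =>
    obtain ⟨m, m', h1, h2, h3⟩ := hX
    obtain ⟨n, n', k1, k2, k3⟩ := hY
    refine ⟨m + n, m' + n', fun x => ?_, fun x => ?_, ?_⟩
    · rw [ext_add, LinearMap.add_apply, h1, k1, Matrix.add_mulVec, map_add]
    · rw [ext_add, LinearMap.add_apply, h2, k2, Matrix.add_mulVec, map_add]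
    · rw [Matrix.map_add τ (map_add τ), Matrix.add_mul, Matrix.mul_add, h3, k3]
  | mul X Y _ _ hX hY =>
    obtain ⟨m, m', h1, h2, h3⟩ := hX
    obtain ⟨n, n', k1, k2, k3⟩ := hY
    refine ⟨m * n, m' * n', fun x => ?_, fun x => ?_, ?_⟩
    · rw [ext_mul, Module.End.mul_apply, k1, h1, Matrix.mulVec_mulVec]
    · rw [ext_mul, Module.End.mul_apply, k2, h2, Matrix.mulVec_mulVec]
    · rw [Matrix.map_mul, Matrix.mul_assoc, k3, ← Matrix.mul_assoc, h3, Matrix.mul_assoc]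

theorem key2 (τ : ℂ →+* ℂ) {al be : ℝ} (hz : HQ A z al) (hz' : HQ A z' be) {N N' : ℕ}
    {sg : Fin N → ℝ} {sg' : Fin N' → ℝ} {φ : VN N →ₗ[ℝ] (Fin g → ℂ)}
    {φ' : VN N' →ₗ[ℝ] (Fin g → ℂ)} (hW : WN A z al N sg φ) (hW' : WN A z' be N' sg' φ')
    (h : A.Full 𝔮) {S : Matrix (Fin N') (Fin N) ℂ} (hS0 : S ≠ 0)
    (hS : ∀ p ∈ rN2 A (der 𝔮) φ φ', p.2 * S = S * p.1.map τ) {X : Module.End ℚ A.H1}
    (hX : X ∈ D1 𝔮) {q q' : Polynomial ℚ} (hq : X * z = Polynomial.aeval z q * z)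
    (hq' : X * z' = Polynomial.aeval z' q' * z') :
    Polynomial.aeval (τ ((al : ℂ) * Complex.I)) q = Polynomial.aeval ((be : ℂ) * Complex.I) q' := by
  obtain ⟨m, m', h1, h2, h3⟩ := adj_mats2 τ hz hz' hW hW' h hS X hX
  have e1 := scal_mat hz hW hq h1
  have e2 := scal_mat hz' hW' hq' h2
  have h4 : (m.map τ) = τ (Polynomial.aeval ((al : ℂ) * Complex.I) q) • (1 : MN N) := by
    rw [e1]
    ext i j
    rw [Matrix.map_apply, Matrix.smul_apply, Matrix.smul_apply, smul_eq_mul, smul_eq_mul, map_mul,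
      Matrix.one_apply]
    split_ifs
    · rw [map_one]
    · rw [map_zero]
  rw [h4, e2, Matrix.smul_mul, Matrix.one_mul, Matrix.mul_smul, Matrix.mul_one] at h3
  have h5 : (Polynomial.aeval ((be : ℂ) * Complex.I) q' -
      τ (Polynomial.aeval ((al : ℂ) * Complex.I) q)) • S = 0 := by
    rw [sub_smul, h3, sub_self]
  rcases smul_eq_zero.1 h5 with h6 | h6
  · have h7 := Polynomial.aeval_algHom_apply τ.toRatAlgHom ((al : ℂ) * Complex.I) q
    have h8 : Polynomial.aeval (τ ((al : ℂ) * Complex.I)) q =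
        τ (Polynomial.aeval ((al : ℂ) * Complex.I) q) := h7
    rw [h8, ← sub_eq_zero.1 h6]
  · exact absurd h6 hS0

/-- **No links between separated places.** -/
theorem nl_two {al be : ℝ} (hz : HQ A z al) (hz' : HQ A z' be) (hs : SepTwo A z z' al be)
    (hs' : SepTwo A z z' (-al) be) {N N' : ℕ} {sg : Fin N → ℝ} {sg' : Fin N' → ℝ}
    {φ : VN N →ₗ[ℝ] (Fin g → ℂ)} {φ' : VN N' →ₗ[ℝ] (Fin g → ℂ)} (hW : WN A z al N sg φ)
    (hW' : WN A z' be N' sg' φ') (h : A.Full 𝔮) : ¬ Linked (rN2 A (der 𝔮) φ φ') := by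
  intro hL
  rcases hL with ⟨S, hS0, hS⟩ | ⟨S, hS0, hS⟩
  · obtain ⟨q, q', X, hX, e, e', hq⟩ := hs (D1 𝔮) (D1_CB h) (fun X hX => gen_cen h hX)
    apply hq
    refine key2 (RingHom.id ℂ) hz hz' hW hW' h hS0 ?_ hX e e'
    intro p hp
    rw [hS p hp]
    congr 1
  · obtain ⟨q, q', X, hX, e, e', hq⟩ := hs' (D1 𝔮) (D1_CB h) (fun X hX => gen_cen h hX)
    apply hq
    have h1 := key2 (starRingEnd ℂ) hz hz' hW hW' h hS0 hS hX e e'
    rw [map_mul, Complex.conj_ofReal, Complex.conj_I] at h1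
    have e1 : ((-al : ℝ) : ℂ) * Complex.I = (al : ℂ) * -Complex.I := by
      push_cast
      ring
    rw [e1]
    exact h1

/-- **Families of parts.** -/
theorem hgi_of {k : ℕ} {zz : Fin k → Module.End ℚ A.H1} {S : Fin k → Finset ℝ}
    (hg : ∀ j, HG A (zz j) (S j))
    (hs : ∀ i j, i ≠ j → ∀ a b : ℝ, (a ∈ S i ∨ -a ∈ S i) → b ∈ S j → SepTwo A (zz i) (zz j) a b) :
    HGI A (fun i : (Σ j : Fin k, {a : ℝ // a ∈ S j}) => zz i.1)
      (fun i : (Σ j : Fin k, {a : ℝ // a ∈ S j}) => i.2.1) where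
  hq := fun i => (hg i.1).hq i.2.1 i.2.2
  big := fun i => (hg i.1).big i.2.1 i.2.2
  nl := by
    rintro ⟨i, a, ha⟩ ⟨j, b, hb⟩ hne N N' sg sg' φ φ' hW hW' 𝔮 h
    by_cases hij : i = j
    · subst hij
      have hab : a ≠ b := fun e => hne (by subst e; rfl)
      exact Pool.Agent.N999.BGSL.main g A (zz i) (S i) (hg i) a ha b hb hab N N' sg sg' φ φ' hW
        hW' 𝔮 h
    · exact nl_two ((hg i).hq a ha) ((hg j).hq b hb) (hs i j hij a b (Or.inl ha) hb)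
        (hs i j hij (-a) b (Or.inr (by rwa [neg_neg])) hb) hW hW' h

end Run7.h2.OB
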