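import Pool.Agent.N208.BT.PDiv
import Pool.Agent.Run7.h2.OB.TZ
import Pool.Agent.Run7.h2.OB.PUDefs

set_option autoImplicit false

/-!
# Products of abelian varieties of unitary types: the proof
-/

open Module Matrix Pool.Agent Pool.Agent.Y102 Pool.Agent.W516.DR Pool.Agent.H204R3.GP

noncomputable section

namespace Run7.h2.OB.PU

variable {g : ℕ} {A : AbVar g} {s n : ℕ} {r : Fin s → ℕ} (w : Fin s → ℤ)

variable (A) in
theorem comm_iff (X : Module.End ℚ A.H1) : Commutes A X ↔ X ∈ N208.BT.CB A :=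
  ⟨fun h P hP => h P (A.mem_EA.1 hP), fun h P hP => h P (A.mem_EA.2 hP)⟩

variable (A) in
theorem deg_eq {z : Module.End ℚ A.H1} {p : ℕ} (h : HasDegree A z p) :
    finrank ℚ ((N208.BT.CB A).map (LinearMap.mulRight ℚ z)) =
      p ^ 2 * finrank ℚ ((Algebra.adjoin ℚ {z}).toSubmodule.map (LinearMap.mulRight ℚ z)) := by
  have e1 : Submodule.span ℚ {Y : Module.End ℚ A.H1 | ∃ X, Commutes A X ∧ Y = X * z} =
      (N208.BT.CB A).map (LinearMap.mulRight ℚ z) := by
    refine le_antisymm (Submodule.span_le.2 ?_) ?_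
    · rintro _ ⟨X, hX, rfl⟩
      exact Submodule.mem_map_of_mem (f := LinearMap.mulRight ℚ z) ((comm_iff A X).1 hX)
    · rintro _ ⟨X, hX, rfl⟩
      exact Submodule.subset_span ⟨X, (comm_iff A X).2 hX, rfl⟩
  have e2 : Submodule.span ℚ {Y : Module.End ℚ A.H1 | ∃ X q, IsPoly A z X q ∧ Y = X * z} =
      (Algebra.adjoin ℚ {z}).toSubmodule.map (LinearMap.mulRight ℚ z) := by
    refine le_antisymm (Submodule.span_le.2 ?_) ?_
    · rintro _ ⟨X, q, hX, rfl⟩
      have h1 : X * z = LinearMap.mulRight ℚ z (Polynomial.aeval z q) := hX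
      rw [h1]
      refine Submodule.mem_map_of_mem (f := LinearMap.mulRight ℚ z) ?_
      exact Polynomial.aeval_mem_adjoin_singleton ℚ z
    · rintro _ ⟨X, hX, rfl⟩
      have hX' : X ∈ Algebra.adjoin ℚ {z} := hX
      rw [Algebra.adjoin_singleton_eq_range_aeval] at hX'
      obtain ⟨q, hq⟩ := hX'
      refine Submodule.subset_span ⟨X, q, ?_, rfl⟩
      have h2 : Polynomial.aeval z q = X := hq
      show X * z = Polynomial.aeval z q * z
      rw [h2]
  have h1 := h
  unfold HasDegree Set.finrank at h1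
  rw [e1, e2] at h1
  exact h1

variable (A) in
theorem UnitaryPart.toHG {z : Module.End ℚ A.H1} {S : Finset ℝ} (h : UnitaryPart A z S) :
    N208.BT.HG A z S := by
  have hgen : ∀ P ∈ A.EA, (∀ Q ∈ A.EA, P * Q = Q * P) →
      ∃ q : Polynomial ℚ, P * z = Polynomial.aeval z q * z := fun P hP hc =>
    h.part.generates P (A.mem_EA.1 hP) fun Q hQ => hc Q (A.mem_EA.2 hQ)
  have hsep : ∀ (B₁ : Subalgebra ℚ (Module.End ℚ A.H1)), (∀ X ∈ B₁, X ∈ N208.BT.CB A) →
      (∀ X ∈ N208.BT.CB A, ∃ X' ∈ Algebra.adjoin ℚ ((B₁ : Set (Module.End ℚ A.H1)) ∪ {z}),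
        X * z = X' * z) → ∀ a b : ℝ, Separates A z a b →
      ∃ (q : Polynomial ℚ), ∃ X ∈ B₁, X * z = Polynomial.aeval z q * z ∧
        Polynomial.aeval ((a : ℂ) * Complex.I) q ≠ Polynomial.aeval ((b : ℂ) * Complex.I) q :=
    fun B₁ h1 h2 a b hs => hs B₁ (fun X hX => (comm_iff A X).2 (h1 X hX))
      fun X hX => h2 X ((comm_iff A X).1 hX)
  have hsim : ∀ a, BallPlace A z a → ∀ x y, x ≠ 0 → N208.BT.Eig A z a x → N208.BT.Eig A z a y →
      y ∈ Submodule.span ℂ {w | ∃ P ∈ A.EA, w = A.ext P x} := by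
    intro a hb x y hx h2 h3
    refine (Submodule.span_mono ?_) (hb.simple x y hx h2 h3)
    rintro w ⟨P, hP, rfl⟩
    exact ⟨P, A.mem_EA.2 hP, rfl⟩
  have hsym : ∀ a b, Separates A z a b → Separates A z b a := by
    intro a b hs B₁ h1 h2
    obtain ⟨q, X, hX, e, hne⟩ := hs B₁ h1 h2
    exact ⟨q, X, hX, e, hne.symm⟩
  rcases h.type with h1 | ⟨hf, a₀, ha₀, hb⟩ | ⟨p, hp, hdv, hdg⟩
  · refine N521.LCHBG.main g A z S ⟨fun a ha => ?_, fun a ha => (h.places.disjoint a ha).2, ?_⟩
      fun a ha => (h.places.indefinite a ha).2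
    · exact ⟨A.mem_EA.2 h.part.endo, fun P hP => h.part.central P (A.mem_EA.1 hP), h.part.skew,
        hgen, (h.places.disjoint a ha).1, (h.places.indefinite a ha).1, hsim a (h1 a ha)⟩
    · intro B₁ h2 h3 a b ha hb hab
      refine hsep B₁ h2 h3 a b ?_
      by_cases hab' : a = -b
      · rcases ha with ha | ha
        · have h4 := (h1 a ha).separated
          rwa [show b = -a by rw [hab', neg_neg]]
        · have h4 := (h1 _ ha).separated
          rw [neg_neg] at h4
          rw [show b = -a by rw [hab', neg_neg]]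
          exact hsym _ _ h4
      · exact h.separated a b ha hb hab hab'
  · refine Run7.h2.OB.HO.hg (al := a₀) ?_
    exact
      { mem := A.mem_EA.2 h.part.endo
        cen := fun P hP => h.part.central P (A.mem_EA.1 hP)
        skew := h.part.skew
        gen := hgen
        fld := fun q hq v hv => by
          rcases hf q with h1 | h1
          · exact h1 v hv
          · exact absurd (LinearMap.ext fun v => h1 v) hq
        al_mem := ha₀
        ne := fun a ha => (h.places.disjoint a ha).1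
        e1 := fun a ha => (h.places.indefinite a ha).1
        e2 := fun a ha => (h.places.indefinite a ha).2
        disj := fun a ha => (h.places.disjoint a ha).2
        simple := hsim a₀ hb
        sep := fun B₁ h2 h3 a b ha hb' hab hab' => by
          refine hsep B₁ h2 h3 a b ?_
          by_cases h5 : a = -b
          · rcases hab' with h6 | h6 | h6
            · exact absurd h5 h6
            · rw [show b = -a by rw [h5, neg_neg], h6]
              exact hb.separated
            · rw [show b = -a by rw [h5, neg_neg], h6, neg_neg]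
              exact hsym _ _ hb.separated
          · exact h.separated a b ha hb' hab h5 }
  · refine N208.BT.hg_of N208.BT.gpd_main (p := p)
      { mem := A.mem_EA.2 h.part.endo
        cen := fun P hP => h.part.central P (A.mem_EA.1 hP)
        skew := h.part.skew
        gen := hgen
        ne := fun a ha => (h.places.disjoint a ha).1
        e1 := fun a ha => (h.places.indefinite a ha).1
        e2 := fun a ha => (h.places.indefinite a ha).2
        disj := fun a ha => (h.places.disjoint a ha).2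
        sep := fun B₁ h2 h3 a b ha hb hab hab' =>
          hsep B₁ h2 h3 a b (h.separated a b ha hb hab hab')
        pd := ⟨hp, fun X hX h0 v hv => ?_, deg_eq A hdg⟩ }
    rcases hdv X ((comm_iff A X).2 hX) with h1 | h1
    · exact h1 v hv
    · exact absurd (LinearMap.ext fun v => h1 v) h0

variable (A) in
theorem UnitaryParts.toHGI {k : ℕ} {z : Fin k → Module.End ℚ A.H1} {S : Fin k → Finset ℝ}
    (h : UnitaryParts A z S) :
    Run7.h2.OB.HGI A (fun i : (Σ j : Fin k, {a : ℝ // a ∈ S j}) => z i.1) (fun i => i.2.1) := by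
  refine Run7.h2.OB.hgi_of (fun j => (h.part j).toHG A) fun i j hij a b ha hb B₁ h1 h2 => ?_
  obtain ⟨q, q', X, hX, e, e', hne⟩ := h.separated i j hij a b ha hb B₁
    (fun X hX => (comm_iff A X).2 (h1 X hX)) fun X hX => by
      refine (Algebra.adjoin_mono (Set.union_subset_union_right _ ?_)) (h2 X ((comm_iff A X).1 hX))
      rintro Z ⟨hZ, hZ'⟩
      exact ⟨A.mem_EA.1 hZ, (comm_iff A Z).2 hZ'⟩
  exact ⟨q, q', X, hX, e, e', hne⟩

variable (A) in
theorem RigidCentre.toRigid (hz : RigidCentre A) : N208.CT.Rigid A := by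
  intro X hX hg Y hY
  refine dom_of_matrix (hz X ⟨hX.1, hX.2⟩ (fun T hT hTX Z hZ => ?_) Y ⟨hY.1, hY.2⟩)
  exact hg T hT hTX Z ⟨hZ.1, hZ.2⟩

theorem main {g s n k : ℕ} (A : AbVar g) (z : Fin k → Module.End ℚ A.H1) (S : Fin k → Finset ℝ)
    (hA : UnitaryParts A z S) (r : Fin s → ℕ) (w : Fin s → ℤ)
    (B : Fin n → Tensors A r) (P : Matrix (Fin n) (Fin n) ℂ) (hM : IsMotive w B P)
    (N : Matrix (Fin n) (Fin n) ℝ) (hN : IsComplexStructure B N) (hD : DomainOf z S B N)
    (G : Subgroup (GL (Fin n) ℂ)) (hG : IsAlgebraicSubgroup G) (T : Matrix (Fin n) (Fin n) ℂ)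
    (hT : ∀ i j, IsAlgebraic ℚ (T i j)) (hP : P ∈ torsor G T) :
    (∀ Z ∈ derived (hodgeLie N), ∀ t : ℂ, ∃ x ∈ G,
      (x : Matrix (Fin n) (Fin n) ℂ) = NormedSpace.exp (t • Z.map fun q => (q : ℂ))) ∧
    (CentreActsTrivially B ∨ RigidCentre A → mumfordTate w B ≤ G) := by
  obtain ⟨hM', Wt, hW⟩ : N208.AM.Mot w B P ∧ ∃ Wt, N208.AM.WRel w B Wt := by
    have hwt : ∃ M, N208.AM.WRel w B M := by
      obtain ⟨M, h⟩ := hM.weight
      refine ⟨M, fun a i => MultilinearMap.ext fun v => ?_⟩
      rw [_root_.smul_apply, _root_.sum_apply, smul_eq_mul, h a i v]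
      rfl
    refine ⟨⟨hM.basis, fun X hX => ?_, hwt, hM.det, hM.deRham⟩, hwt⟩
    obtain ⟨M, h⟩ := hM.lie X hX
    refine ⟨M, fun a i => MultilinearMap.ext fun v => ?_⟩
    rw [N208.AM.dact_apply, _root_.sum_apply, h a i v]
    rfl
  have hrelL : ∀ X M, N208.AM.Rel B X M ↔ IsLieMatrix B X M := by
    intro X M
    constructor
    · intro h a i v
      have h1 := congrArg (fun φ : MultilinearMap ℚ (fun _ : Fin (r i) => A.H1) ℚ => φ v) (h a i)
      simp only [N208.AM.dact_apply, _root_.sum_apply, _root_.smul_apply, smul_eq_mul] at h1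
      exact h1
    · intro h a i
      refine MultilinearMap.ext fun v => ?_
      rw [N208.AM.dact_apply, _root_.sum_apply, h a i v]
      rfl
  have hb : ∀ j : Fin (2 * g), A.bas j = Pi.single j 1 := fun j => by
    unfold AbVar.bas
    rw [Pi.basisFun_apply]
  have hrel : ∀ z R, N208.AM.HRel w B z R → IsHodgeMatrix w B z R := by
    intro z R h a i j
    have h1 := h a i j
    simp only [hb] at h1
    exact h1
  have hNC : CentreActsTrivially B → N208.AM.NoCentre B := fun hc X hX h =>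
    (hrelL X 0).2 (hc X hX fun Y hY => (hrelL _ 0).1 (h Y hY))
  -- the complex structure
  have hNR : N208.AM.RelR B AbVar.JJ N := by
    intro a i
    refine Basis.ext_multilinear (fun _ => A.lam) fun j => ?_
    have h1 := hN a i j
    rw [N208.AM.dact_apply, _root_.sum_apply]
    have h2 : (fun p => A.lam (j p)) = fun p => A.per (Pi.single (j p) 1) := by
      funext p
      rw [← hb, A.per_bas]
    have h3 : ∀ b, (N b a • A.Phi (B b i)) (fun p => A.lam (j p)) =
        N b a * (B b i (fun p => Pi.single (j p) 1) : ℝ) := fun b => by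
      rw [_root_.smul_apply, smul_eq_mul, h2, A.Phi_per]
    rw [Finset.sum_congr rfl fun b _ => h3 b, ← h1]
    refine Finset.sum_congr rfl fun k _ => ?_
    rw [AbVar.JJ_apply, ← A.lam.sum_repr (Complex.I • A.lam (j k)), MultilinearMap.map_update_sum]
    simp only [A.lam.sum_repr]
    refine Finset.sum_congr rfl fun l _ => ?_
    rw [MultilinearMap.map_update_smul, smul_eq_mul]
    congr 1
    have h4 : A.lam l = A.per (Pi.single l 1) := by rw [← hb, A.per_bas]
    rw [h2, h4, N208.AM.update_per, A.Phi_per]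
  have hrig := Run7.h2.OB.rpartI (hA.toHGI A)
  have hα : N208.BT.DomU (Run7.h2.OB.UI A
      (fun i : (Σ j : Fin k, {a : ℝ // a ∈ S j}) => z i.1) (fun i => i.2.1)) B N := by
    intro p hp h0
    refine hD p ?_ fun j a ha x hx => h0 x ⟨⟨j, a, ha⟩, ?_⟩
    · refine (Submodule.span_mono ?_) hp
      rintro _ ⟨X, hX, M, hM, rfl⟩
      refine ⟨X, ?_, M, (hrelL _ _).1 hM, rfl⟩
      refine (Submodule.span_mono ?_) hX
      rintro _ ⟨X, hX, Y, hY, rfl⟩
      exact ⟨X, hX, Y, hY, rfl⟩
    · have hz : z j ∈ A.EA := A.mem_EA.2 (hA.part j).part.endo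
      rcases hx with hx | hx
      · exact N208.BT.eig_mem_V0 hz rfl hx
      · exact N208.BT.eig_mem_V0 hz (by ring) hx
  -- the group
  have hdet : T.det ≠ 0 := by
    obtain ⟨x, -, hxT⟩ := hP
    intro h0
    have h1 : (x : Matrix (Fin n) (Fin n) ℂ).det = 0 := by
      rw [hxT, Matrix.det_mul, h0, mul_zero]
    exact (Matrix.GeneralLinearGroup.det x).ne_zero h1
  obtain ⟨T', h1, h2⟩ := Pool.Agent.R917.alg_inv hT hdet
  obtain ⟨x, hx, hxT⟩ := hP
  have hH : N208.AM.PtM P _ := ⟨Pool.Agent.R917.algGrp_of hG, T, T', h1, h2, x, hx, hxT⟩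
  refine ⟨fun Z hZ t => ?_, fun hA => ?_⟩
  · obtain ⟨L, hL1, hL2, hL3⟩ := N208.BT.main_derU hM' hW hH hrig hNR hα
    have h3 : hodgeLie N ≤ L := sInf_le ⟨hL1, hL2⟩
    have h4 : derived (hodgeLie N) ≤
        N208.AM.LQ {M | ∃ x ∈ G, (x : Matrix (Fin n) (Fin n) ℂ) = M} := by
      unfold derived
      rw [Submodule.span_le]
      rintro _ ⟨x, hx, y, hy, rfl⟩
      exact hL3 x (h3 hx) y (h3 hy)
    exact Pool.Agent.R917.exp_mem hH.grp fun d => (h4 hZ d).smul t
  · rcases hA with hA | hA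
    · have hc : N208.AM.NoCentre B := hNC hA
      refine sInf_le ⟨hG, fun z hz => ?_⟩
      obtain ⟨⟨x, hx, hx'⟩, h4⟩ := N208.BT.main_BU hM' hW hH hc hrig hNR hα hz
      refine ⟨x, hx, ?_⟩
      rw [hx']
      exact hrel _ _ h4
    · refine sInf_le ⟨hG, fun u hu => ?_⟩
      obtain ⟨⟨y, hy, hy'⟩, h4⟩ := N208.CT.main_CT hM' hW hH (hA.toRigid A) hrig hNR hα hu
      refine ⟨y, hy, ?_⟩
      rw [hy']
      exact hrel _ _ h4

end Run7.h2.OB.PU
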