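import Pool.Agent.Run7.h2.OB.PUDefs

set_option autoImplicit false

/-!
# Unitary places with different signatures: the definitions

See `Pool/Agent/Results/MP_470b79_ag/DifferentSignatures.lean`.
-/

open Module Matrix Pool.Agent.Y102 Pool.Agent.W516.DR Pool.Agent.H204R3.GP

noncomputable section

namespace Run7.h2.OB.PU

variable {g : ℕ} (A : AbVar g)

/-- The multiplicity of the eigenvalue `i a` of `z` on the tangent space. -/
def multiplicity (z : Module.End ℚ A.H1) (a : ℝ) : ℕ := Set.finrank ℂ {x | Eigen A z a x}

/-- `a` is different from zero, and `i a` and `- i a` are eigenvalues of `z` on the tangent space. -/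
def IndefiniteAt (z : Module.End ℚ A.H1) (a : ℝ) : Prop :=
  a ≠ 0 ∧ (∃ x, x ≠ 0 ∧ Eigen A z a x) ∧ ∃ x, x ≠ 0 ∧ Eigen A z (-a) x

/-- **A unitary place**: `z` is central and skew-symmetric and generates the centre on its image, the
signature at `a` is indefinite, and: `a` is a ball place; or `ℚ[z]` is a field and some place of `z` is
a ball place; or the commutant of the endomorphisms is a division algebra of a prime degree. -/
structure UnitaryPlace (z : Module.End ℚ A.H1) (a : ℝ) : Prop where
  part : CentralPart A z
  indefinite : IndefiniteAt A z a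
  type : BallPlace A z a ∨ (IsFieldPart A z ∧ ∃ b, IndefiniteAt A z b ∧ BallPlace A z b) ∨
    ∃ p : ℕ, p.Prime ∧ IsDivision A z ∧ HasDegree A z p

/-- **The signatures are different.** If `(r, s)` and `(r', s')` are the multiplicities of `i a`, `- i a` (for
`z`) and of `i b`, `- i b` (for `z'`) on the tangent space, then `r : s ≠ r' : s'` and
`r : s ≠ s' : r'`. -/
def DifferentSignatures (z z' : Module.End ℚ A.H1) (a b : ℝ) : Prop :=
  multiplicity A z a * multiplicity A z' (-b) ≠ multiplicity A z (-a) * multiplicity A z' b ∧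
    multiplicity A z a * multiplicity A z' b ≠ multiplicity A z (-a) * multiplicity A z' (-b)

/-- **Several unitary places**, of one or of several central endomorphisms. Different places have
different signatures, or they are separated. -/
structure UnitaryPlaces {k : ℕ} (z : Fin k → Module.End ℚ A.H1) (a : Fin k → ℝ) : Prop where
  place : ∀ i, UnitaryPlace A (z i) (a i)
  apart : ∀ i j, i ≠ j → DifferentSignatures A (z i) (z j) (a i) (a j) ∨
    (SeparatesTwo A (z i) (z j) (a i) (a j) ∧ SeparatesTwo A (z i) (z j) (-(a i)) (a j))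

/-- **The torsor `Ω^dRB`**: the intersection of all torsors defined over `ℚ̄` of algebraic groups
over `ℚ` which contain the matrix `P` of the periods. -/
def omegaDRB {n : ℕ} (P : Matrix (Fin n) (Fin n) ℂ) : Set (Matrix (Fin n) (Fin n) ℂ) :=
  {F | ∀ (G : Subgroup (GL (Fin n) ℂ)) (T : Matrix (Fin n) (Fin n) ℂ), IsAlgebraicSubgroup G →
    (∀ i j, IsAlgebraic ℚ (T i j)) → P ∈ torsor G T → F ∈ torsor G T}

/-- **The torsor `Ω^And`**: the torsor of the Mumford-Tate group which contains `P`. -/
def omegaAnd {g s n : ℕ} {A : AbVar g} {r : Fin s → ℕ} (w : Fin s → ℤ) (B : Fin n → Tensors A r)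
    (P : Matrix (Fin n) (Fin n) ℂ) : Set (Matrix (Fin n) (Fin n) ℂ) :=
  {F | ∃ x ∈ mumfordTate w B, F = (x : Matrix (Fin n) (Fin n) ℂ) * P}

end Run7.h2.OB.PU
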