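import Pool.Agent.Run7.h2.OB.Lk2
import Pool.Agent.Run7.h2.OB.PUMain
import Pool.Agent.Run7.h2.OB.SGDefs

set_option autoImplicit false

/-!
# Unitary places with different signatures: the proof
-/

open Module Matrix Pool.Agent Pool.Agent.Y102 Pool.Agent.W516.DR Pool.Agent.H204R3.GP

noncomputable section

namespace Run7.h2.OB.PU

variable {g : ℕ} (A : AbVar g)

theorem CentralPart.hq {z : Module.End ℚ A.H1} (h : CentralPart A z) {a : ℝ}
    (ha : IndefiniteAt A z a) : N208.BT.HQ A z a where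
  mem := A.mem_EA.2 h.endo
  cen := fun P hP => h.central P (A.mem_EA.1 hP)
  skew := h.skew
  gen := fun P hP hc => h.generates P (A.mem_EA.1 hP) fun Q hQ => hc Q (A.mem_EA.2 hQ)
  ne := ha.1
  ex := by
    obtain ⟨x, hx, hxe⟩ := ha.2.1
    exact ⟨x, N208.BT.eig_mem_V0 (A.mem_EA.2 h.endo) rfl hxe, hx⟩

theorem sep_use {z : Module.End ℚ A.H1} {a b : ℝ} (hs : Separates A z a b)
    {B₁ : Subalgebra ℚ (Module.End ℚ A.H1)} (h1 : ∀ X ∈ B₁, X ∈ N208.BT.CB A)
    (h2 : ∀ X ∈ N208.BT.CB A, ∃ X' ∈ Algebra.adjoin ℚ ((B₁ : Set (Module.End ℚ A.H1)) ∪ {z}),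
      X * z = X' * z) :
    ∃ (q : Polynomial ℚ), ∃ X ∈ B₁, X * z = Polynomial.aeval z q * z ∧
      Polynomial.aeval ((a : ℂ) * Complex.I) q ≠ Polynomial.aeval ((b : ℂ) * Complex.I) q :=
  hs B₁ (fun X hX => (comm_iff A X).2 (h1 X hX)) fun X hX => h2 X ((comm_iff A X).1 hX)

/-- the ball places -/
theorem BallPlace.hb {z : Module.End ℚ A.H1} {a : ℝ} (hc : CentralPart A z)
    (ha : IndefiniteAt A z a) (hb : BallPlace A z a) : N208.BT.HB A z {a} where
  hp := by
    intro b hb'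
    rw [Finset.mem_singleton] at hb'
    subst hb'
    refine ⟨A.mem_EA.2 hc.endo, fun P hP => hc.central P (A.mem_EA.1 hP), hc.skew,
      fun P hP hcc => hc.generates P (A.mem_EA.1 hP) fun Q hQ => hcc Q (A.mem_EA.2 hQ), ha.1,
      ha.2.1, fun x y hx h2 h3 => ?_⟩
    refine (Submodule.span_mono ?_) (hb.simple x y hx h2 h3)
    rintro w ⟨P, hP, rfl⟩
    exact ⟨P, A.mem_EA.2 hP, rfl⟩
  disj := by
    intro b hb1 hb2
    rw [Finset.mem_singleton] at hb1 hb2
    subst hb1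
    have h1 := ha.1
    have h2 : b = 0 := by linarith
    exact h1 h2
  sep := by
    intro D₁ h1 h2 b c hb' hc' hne
    rw [Finset.mem_singleton, Finset.mem_singleton] at hb' hc'
    have key : (b = a ∧ c = -a) ∨ (b = -a ∧ c = a) := by
      rcases hb' with h3 | h3 <;> rcases hc' with h4 | h4
      · exact absurd (h3.trans h4.symm) hne
      · exact Or.inl ⟨h3, by rw [← h4, neg_neg]⟩
      · exact Or.inr ⟨by rw [← h3, neg_neg], h4⟩
      · exact absurd (neg_injective (h3.trans h4.symm)) hne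
    obtain ⟨q, X, hX, e, hq⟩ := sep_use A hb.separated h1 h2
    rcases key with ⟨rfl, rfl⟩ | ⟨rfl, rfl⟩
    · exact ⟨q, X, hX, e, hq⟩
    · exact ⟨q, X, hX, e, hq.symm⟩

/-- **All full subalgebras contain the long roots at a unitary place.** -/
theorem UnitaryPlace.big {z : Module.End ℚ A.H1} {a : ℝ} (h : UnitaryPlace A z a) (N : ℕ)
    (sg : Fin N → ℝ) (φ : N208.BT.VN N →ₗ[ℝ] (Fin g → ℂ)) (w : N208.BT.WN A z a N sg φ) :
    N208.BT.Mixed sg ∧ ∀ 𝔮 : Submodule ℚ (Module.End ℚ A.H1), A.Full 𝔮 →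
      N208.BT.Big sg (N208.BT.rN A (Y102.der 𝔮) φ) := by
  have hq := h.part.hq A h.indefinite
  have hmx := N208.BT.mixed_of hq h.indefinite.2.1 h.indefinite.2.2 w
  have hball : ∀ b, IndefiniteAt A z b → BallPlace A z b → ∀ (N : ℕ) (sg : Fin N → ℝ)
      (φ : N208.BT.VN N →ₗ[ℝ] (Fin g → ℂ)), N208.BT.WN A z b N sg φ →
      N208.BT.Mixed sg ∧ ∀ 𝔮 : Submodule ℚ (Module.End ℚ A.H1), A.Full 𝔮 →
        N208.BT.Big sg (N208.BT.rN A (Y102.der 𝔮) φ) := by
    intro b hb hbb N sg φ w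
    have h0 := N521.LCHBG.main g A z {b} (hbb.hb A h.part hb) (by
      intro c hc
      rw [Finset.mem_singleton] at hc
      subst hc
      exact hb.2.2)
    exact h0.big b (Finset.mem_singleton_self b) N sg φ w
  rcases h.type with h1 | ⟨hf, b, hb, hbb⟩ | ⟨p, hp, hdv, hdg⟩
  · exact hball a h.indefinite h1 N sg φ w
  · have hqb := h.part.hq A hb
    obtain ⟨W, hW⟩ := N755.BGWA.main g A z b hqb
    obtain ⟨N0, sg0, φ0, w0⟩ := N455.BGWB.main g A z b hqb W hW
    have h1 := hball b hb hbb N0 sg0 φ0 w0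
    exact ⟨hmx, fun 𝔮 hq𝔮 => Run7.h2.OB.big_of_one hqb w0 h1.1 (fun q hq v hv => by
      rcases hf q with h1 | h1
      · exact h1 v hv
      · exact absurd (LinearMap.ext fun v => h1 v) hq) hq𝔮 (h1.2 𝔮 hq𝔮) hq w⟩
  · refine ⟨hmx, fun 𝔮 hq𝔮 => N208.BT.gpd_main g A z _ p hq
      ⟨hp, fun X hX h0 v hv => ?_, deg_eq A hdg⟩ N sg φ w hmx 𝔮 hq𝔮⟩
    rcases hdv X ((comm_iff A X).2 hX) with h1 | h1
    · exact h1 v hv
    · exact absurd (LinearMap.ext fun v => h1 v) h0

theorem UnitaryPlaces.toHGI {k : ℕ} {z : Fin k → Module.End ℚ A.H1} {a : Fin k → ℝ}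
    (h : UnitaryPlaces A z a) : Run7.h2.OB.HGI A z a where
  hq := fun i => (h.place i).part.hq A (h.place i).indefinite
  big := fun i => (h.place i).big A
  nl := by
    intro i j hij N N' sg sg' φ φ' w w' 𝔮 hq𝔮
    have hqi := (h.place i).part.hq A (h.place i).indefinite
    have hqj := (h.place j).part.hq A (h.place j).indefinite
    rcases h.apart i j hij with hd | ⟨h1, h2⟩
    · intro hL
      rcases Run7.h2.OB.dims_of_link hqi hqj w w' hq𝔮 hL with h3 | h3
      · exact hd.1 h3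
      · exact hd.2 h3
    · have hs : ∀ c, SeparatesTwo A (z i) (z j) c (a j) →
          Run7.h2.OB.SepTwo A (z i) (z j) c (a j) := by
        intro c hc B₁ k1 k2
        obtain ⟨q, q', X, hX, e, e', hne⟩ := hc B₁
          (fun X hX => (comm_iff A X).2 (k1 X hX)) fun X hX => by
            refine (Algebra.adjoin_mono (Set.union_subset_union_right _ ?_))
              (k2 X ((comm_iff A X).1 hX))
            rintro Z ⟨hZ, hZ'⟩
            exact ⟨A.mem_EA.1 hZ, (comm_iff A Z).2 hZ'⟩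
        exact ⟨q, q', X, hX, e, e', hne⟩
      exact Run7.h2.OB.nl_two hqi hqj (hs _ h1) (hs _ h2) w w' hq𝔮

/-- the general form of the theorem on torsors -/
theorem main_hgi {g s n k : ℕ} (A : AbVar g) (z : Fin k → Module.End ℚ A.H1) (a : Fin k → ℝ)
    (hA : Run7.h2.OB.HGI A z a) (r : Fin s → ℕ) (w : Fin s → ℤ)
    (B : Fin n → Tensors A r) (P : Matrix (Fin n) (Fin n) ℂ) (hM : IsMotive w B P)
    (N : Matrix (Fin n) (Fin n) ℝ) (hN : IsComplexStructure B N)
    (hD : DomainOf z (fun j => {a j}) B N)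
    (G : Subgroup (GL (Fin n) ℂ)) (hG : IsAlgebraicSubgroup G) (T : Matrix (Fin n) (Fin n) ℂ)
    (hT : ∀ i j, IsAlgebraic ℚ (T i j)) (hP : P ∈ torsor G T) :
    (∀ Z ∈ derived (hodgeLie N), ∀ t : ℂ, ∃ x ∈ G,
      (x : Matrix (Fin n) (Fin n) ℂ) = NormedSpace.exp (t • Z.map fun q => (q : ℂ))) ∧
    (CentreActsTrivially B ∨ RigidCentre A → mumfordTate w B ≤ G) := by
  obtain ⟨hM', Wt, hW⟩ : N208.AM.Mot w B P ∧ ∃ Wt, N208.AM.WRel w B Wt := by
    have hwt : ∃ M, N208.AM.WRel w B M := by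
      obtain ⟨M, h⟩ := hM.weight
      refine ⟨M, fun a i => MultilinearMap.ext fun v => ?_⟩
      rw [_root_.smul_apply, _root_.sum_apply, smul_eq_mul, h a i v]
      rfl
    refine ⟨⟨hM.basis, fun X hX => ?_, hwt, hM.det, hM.deRham⟩, hwt⟩
    obtain ⟨M, h⟩ := hM.lie X hX
    refine ⟨M, fun a i => MultilinearMap.ext fun v => ?_⟩
    rw [N208.AM.dact_apply, _root_.sum_apply, h a i v]
    rfl
  have hrelL : ∀ X M, N208.AM.Rel B X M ↔ IsLieMatrix B X M := by
    intro X M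
    constructor
    · intro h a i v
      have h1 := congrArg (fun φ : MultilinearMap ℚ (fun _ : Fin (r i) => A.H1) ℚ => φ v) (h a i)
      simp only [N208.AM.dact_apply, _root_.sum_apply, _root_.smul_apply, smul_eq_mul] at h1
      exact h1
    · intro h a i
      refine MultilinearMap.ext fun v => ?_
      rw [N208.AM.dact_apply, _root_.sum_apply, h a i v]
      rfl
  have hb : ∀ j : Fin (2 * g), A.bas j = Pi.single j 1 := fun j => by
    unfold AbVar.bas
    rw [Pi.basisFun_apply]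
  have hrel : ∀ z R, N208.AM.HRel w B z R → IsHodgeMatrix w B z R := by
    intro z R h a i j
    have h1 := h a i j
    simp only [hb] at h1
    exact h1
  have hNC : CentreActsTrivially B → N208.AM.NoCentre B := fun hc X hX h =>
    (hrelL X 0).2 (hc X hX fun Y hY => (hrelL _ 0).1 (h Y hY))
  -- the complex structure
  have hNR : N208.AM.RelR B AbVar.JJ N := by
    intro a i
    refine Basis.ext_multilinear (fun _ => A.lam) fun j => ?_
    have h1 := hN a i j
    rw [N208.AM.dact_apply, _root_.sum_apply]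
    have h2 : (fun p => A.lam (j p)) = fun p => A.per (Pi.single (j p) 1) := by
      funext p
      rw [← hb, A.per_bas]
    have h3 : ∀ b, (N b a • A.Phi (B b i)) (fun p => A.lam (j p)) =
        N b a * (B b i (fun p => Pi.single (j p) 1) : ℝ) := fun b => by
      rw [_root_.smul_apply, smul_eq_mul, h2, A.Phi_per]
    rw [Finset.sum_congr rfl fun b _ => h3 b, ← h1]
    refine Finset.sum_congr rfl fun k _ => ?_
    rw [AbVar.JJ_apply, ← A.lam.sum_repr (Complex.I • A.lam (j k)), MultilinearMap.map_update_sum]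
    simp only [A.lam.sum_repr]
    refine Finset.sum_congr rfl fun l _ => ?_
    rw [MultilinearMap.map_update_smul, smul_eq_mul]
    congr 1
    have h4 : A.lam l = A.per (Pi.single l 1) := by rw [← hb, A.per_bas]
    rw [h2, h4, N208.AM.update_per, A.Phi_per]
  have hrig := Run7.h2.OB.rpartI hA
  have hα : N208.BT.DomU (Run7.h2.OB.UI A z a) B N := by
    intro p hp h0
    refine hD p ?_ fun j b hbj x hx => h0 x ⟨j, ?_⟩
    · refine (Submodule.span_mono ?_) hp
      rintro _ ⟨X, hX, M, hM, rfl⟩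
      refine ⟨X, ?_, M, (hrelL _ _).1 hM, rfl⟩
      refine (Submodule.span_mono ?_) hX
      rintro _ ⟨X, hX, Y, hY, rfl⟩
      exact ⟨X, hX, Y, hY, rfl⟩
    · rw [Finset.mem_singleton] at hbj
      subst hbj
      have hz : z j ∈ A.EA := (hA.hq j).mem
      rcases hx with hx | hx
      · exact N208.BT.eig_mem_V0 hz rfl hx
      · exact N208.BT.eig_mem_V0 hz (by ring) hx
  -- the group
  have hdet : T.det ≠ 0 := by
    obtain ⟨x, -, hxT⟩ := hP
    intro h0
    have h1 : (x : Matrix (Fin n) (Fin n) ℂ).det = 0 := by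
      rw [hxT, Matrix.det_mul, h0, mul_zero]
    exact (Matrix.GeneralLinearGroup.det x).ne_zero h1
  obtain ⟨T', h1, h2⟩ := Pool.Agent.R917.alg_inv hT hdet
  obtain ⟨x, hx, hxT⟩ := hP
  have hH : N208.AM.PtM P _ := ⟨Pool.Agent.R917.algGrp_of hG, T, T', h1, h2, x, hx, hxT⟩
  refine ⟨fun Z hZ t => ?_, fun hA => ?_⟩
  · obtain ⟨L, hL1, hL2, hL3⟩ := N208.BT.main_derU hM' hW hH hrig hNR hα
    have h3 : hodgeLie N ≤ L := sInf_le ⟨hL1, hL2⟩
    have h4 : derived (hodgeLie N) ≤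
        N208.AM.LQ {M | ∃ x ∈ G, (x : Matrix (Fin n) (Fin n) ℂ) = M} := by
      unfold derived
      rw [Submodule.span_le]
      rintro _ ⟨x, hx, y, hy, rfl⟩
      exact hL3 x (h3 hx) y (h3 hy)
    exact Pool.Agent.R917.exp_mem hH.grp fun d => (h4 hZ d).smul t
  · rcases hA with hA | hA
    · have hc : N208.AM.NoCentre B := hNC hA
      refine sInf_le ⟨hG, fun z hz => ?_⟩
      obtain ⟨⟨x, hx, hx'⟩, h4⟩ := N208.BT.main_BU hM' hW hH hc hrig hNR hα hz
      refine ⟨x, hx, ?_⟩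
      rw [hx']
      exact hrel _ _ h4
    · refine sInf_le ⟨hG, fun u hu => ?_⟩
      obtain ⟨⟨y, hy, hy'⟩, h4⟩ := N208.CT.main_CT hM' hW hH (hA.toRigid A) hrig hNR hα hu
      refine ⟨y, hy, ?_⟩
      rw [hy']
      exact hrel _ _ h4

theorem omega_main {g s n k : ℕ} (A : AbVar g) (z : Fin k → Module.End ℚ A.H1) (a : Fin k → ℝ)
    (hA : UnitaryPlaces A z a) (r : Fin s → ℕ) (w : Fin s → ℤ)
    (B : Fin n → Tensors A r) (P : Matrix (Fin n) (Fin n) ℂ) (hM : IsMotive w B P)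
    (N : Matrix (Fin n) (Fin n) ℝ) (hN : IsComplexStructure B N)
    (hD : DomainOf z (fun j => {a j}) B N) :
    (∀ Z ∈ derived (hodgeLie N), ∀ t : ℂ,
      NormedSpace.exp (t • Z.map fun q => (q : ℂ)) * P ∈ omegaDRB P) ∧
    (CentreActsTrivially B ∨ RigidCentre A → omegaAnd w B P ⊆ omegaDRB P) := by
  refine ⟨fun Z hZ t G T hG hT hP => ?_, ?_⟩
  · obtain ⟨x, hx, e⟩ := (main_hgi A z a (hA.toHGI A) r w B P hM N hN hD G hG T hT hP).1 Z hZ t
    obtain ⟨y, hy, e'⟩ := hP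
    refine ⟨x * y, G.mul_mem hx hy, ?_⟩
    rw [Matrix.GeneralLinearGroup.coe_mul, e, e', Matrix.mul_assoc]
  · rintro hc _ ⟨x, hx, rfl⟩ G T hG hT hP
    have h1 := (main_hgi A z a (hA.toHGI A) r w B P hM N hN hD G hG T hT hP).2 hc hx
    obtain ⟨y, hy, e'⟩ := hP
    refine ⟨x * y, G.mul_mem h1 hy, ?_⟩
    rw [Matrix.GeneralLinearGroup.coe_mul, e', Matrix.mul_assoc]

end Run7.h2.OB.PU
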