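import Pool.Agent.N208.BT.AllG

set_option autoImplicit false
set_option linter.unusedSectionVars false

/-!
# Several places, for several central endomorphisms

This generalizes the statement `G_SJ` of project BT of helper208 (proved by helper441) to families of
central endomorphisms.
-/

open Module Matrix

noncomputable section

namespace Run7.h2.OB

open Pool.Agent Pool.Agent.Y102 Pool.Agent.W516.DR Pool.Agent.H204R3.GP Pool.Agent.W516.KC
  Pool.Agent.H204R3.SP Pool.Agent.TH119.MX Pool.Agent.R917 Pool.Agent.N208.AM Pool.Agent.N208.AD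
  Pool.Agent.N208.BT Pool.Agent.N441.BGSJ

variable {g : ℕ} {A : AbVar g} {ι : Type}

/-- Places `i al i` of central endomorphisms `z i`, such that all full subalgebras contain the long
roots, and such that there are no links. -/
structure HGI (A : AbVar g) (z : ι → Module.End ℚ A.H1) (al : ι → ℝ) : Prop where
  hq : ∀ i, HQ A (z i) (al i)
  big : ∀ i, ∀ (N : ℕ) (sg : Fin N → ℝ) (φ : VN N →ₗ[ℝ] (Fin g → ℂ)), WN A (z i) (al i) N sg φ →
    Mixed sg ∧ ∀ 𝔮 : Submodule ℚ (Module.End ℚ A.H1), A.Full 𝔮 → Big sg (rN A (der 𝔮) φ)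
  nl : ∀ i j, i ≠ j → ∀ (N N' : ℕ) (sg : Fin N → ℝ) (sg' : Fin N' → ℝ)
    (φ : VN N →ₗ[ℝ] (Fin g → ℂ)) (φ' : VN N' →ₗ[ℝ] (Fin g → ℂ)),
    WN A (z i) (al i) N sg φ → WN A (z j) (al j) N' sg' φ' →
    ∀ 𝔮 : Submodule ℚ (Module.End ℚ A.H1), A.Full 𝔮 → ¬ Linked (rN2 A (der 𝔮) φ φ')

/-- two places -/
theorem pair {z : ι → Module.End ℚ A.H1} {al : ι → ℝ} (H : HGI A z al) {i j : ι} (hne : i ≠ j)
    {N N' : ℕ} {sg : Fin N → ℝ} {sg' : Fin N' → ℝ} {φ : VN N →ₗ[ℝ] (Fin g → ℂ)}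
    {φ' : VN N' →ₗ[ℝ] (Fin g → ℂ)} (w : WN A (z i) (al i) N sg φ)
    (w' : WN A (z j) (al j) N' sg' φ')
    {𝔮 : Submodule ℚ (Module.End ℚ A.H1)} (hq : A.Full 𝔮) {m : MN N} (hsk : IsSks sg m)
    (ht : m.trace = 0) : (m, (0 : MN N')) ∈ rN2 A (der 𝔮) φ φ' := by
  have hmx := (H.big i N sg φ w).1
  have hmx' := (H.big j N' sg' φ' w').1
  have hB := (H.big i N sg φ w).2 𝔮 hq
  have hB' := (H.big j N' sg' φ' w').2 𝔮 hq
  have hr := N755.BGRR.main g A (z i) (al i) (H.hq i) N sg φ w 𝔮 hq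
  have hr' := N755.BGRR.main g A (z j) (al j) (H.hq j) N' sg' φ' w' 𝔮 hq
  have k1 : ∀ p ∈ rN2 A (der 𝔮) φ φ', p.1 ∈ rN A (der 𝔮) φ := by
    rintro p ⟨y, hy, h1, _⟩
    exact ⟨y, hy, h1⟩
  have k2 : ∀ p ∈ rN2 A (der 𝔮) φ φ', p.2 ∈ rN A (der 𝔮) φ' := by
    rintro p ⟨y, hy, _, h2⟩
    exact ⟨y, hy, h2⟩
  have hPR : PRs sg sg' (rN2 A (der 𝔮) φ φ') := by
    refine ⟨?_, fun p hp => hr.sk _ (k1 p hp), fun p hp => hr'.sk _ (k2 p hp),
      fun p hp => trace_zero hr (k1 p hp), fun p hp => trace_zero hr' (k2 p hp), ?_, ?_⟩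
    · rintro p ⟨y, hy, h1, h2⟩ q ⟨y', hy', h1', h2'⟩
      refine ⟨y * y' - y' * y, der_br hq y hy y' hy', fun x => ?_, fun x => ?_⟩
      · rw [LinearMap.sub_apply, Module.End.mul_apply, Module.End.mul_apply, h1', h1, h1, h1',
          ← map_sub, Matrix.mulVec_mulVec, Matrix.mulVec_mulVec, ← Matrix.sub_mulVec]
        rfl
      · rw [LinearMap.sub_apply, Module.End.mul_apply, Module.End.mul_apply, h2', h2, h2, h2',
          ← map_sub, Matrix.mulVec_mulVec, Matrix.mulVec_mulVec, ← Matrix.sub_mulVec]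
        rfl
    · intro x hx
      obtain ⟨y, hy, h1⟩ := hB x hx
      obtain ⟨m', hm'⟩ := mat_spE (H.hq j) w' (der_spE hq hy)
      exact ⟨m', y, hy, h1, hm'⟩
    · intro x hx
      obtain ⟨y, hy, h1⟩ := hB' x hx
      obtain ⟨m', hm'⟩ := mat_spE (H.hq i) w (der_spE hq hy)
      exact ⟨m', y, hy, hm', h1⟩
  have h3 := (gpa_main N N' sg sg' w.isSg hmx w'.isSg hmx' _ hPR).resolve_right
    (H.nl i j hne N N' sg sg' φ φ' w w' 𝔮 hq)
  have h4 := N749.BGSU.main N sg w.isSg hmx m hsk ht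
  have h5 : Submodule.span ℝ {Y : MN N | ∃ x : VN N, hs sg x x = 0 ∧ Y = Complex.I • Rs sg x x} ≤
      (rN2 A (der 𝔮) φ φ').comap (LinearMap.inl ℝ (MN N) (MN N')) := by
    refine Submodule.span_le.mpr ?_
    rintro Y ⟨x, hx, rfl⟩
    exact h3 x hx
  exact h5 h4

/-- an element of the derived algebra which is prescribed at one place and zero at the others -/
theorem one_place [DecidableEq ι] {z : ι → Module.End ℚ A.H1} {al : ι → ℝ} (H : HGI A z al)
    (N : ι → ℕ) (sg : ∀ a, Fin (N a) → ℝ) (φ : ∀ a, VN (N a) →ₗ[ℝ] (Fin g → ℂ))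
    (w : ∀ a : ι, WN A (z a) (al a) (N a) (sg a) (φ a))
    {𝔮 : Submodule ℚ (Module.End ℚ A.H1)} (hq : A.Full 𝔮) (i : ι) (T : Finset ι)
    (hT : i ∉ T) : ∀ m : MN (N i), IsSks (sg i) m → m.trace = 0 →
      ∃ y ∈ spE A (der 𝔮 : Set (Module.End ℚ A.H1)), (∀ x, y (φ i x) = φ i (m *ᵥ x)) ∧
        ∀ be ∈ T, ∀ x, y (φ be x) = 0 := by
  have hr := N755.BGRR.main g A (z i) (al i) (H.hq i) (N i) (sg i) (φ i) (w i) 𝔮 hq
  have hB := H.big i (N i) (sg i) (φ i) (w i)
  induction T using Finset.induction_on with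
  | empty =>
    intro m hs ht
    obtain ⟨y, hy, h1⟩ := full_mem N749.BGSU.main (w i).isSg hB.1 (hB.2 𝔮 hq) hs ht
    exact ⟨y, hy, h1, fun be hbe => absurd hbe (Finset.notMem_empty be)⟩
  | insert be T hbe ih =>
    have hne : i ≠ be := fun h0 => hT (by
      rw [h0]
      exact Finset.mem_insert_self _ _)
    have ih' := ih fun h0 => hT (Finset.mem_insert_of_mem h0)
    intro m hs ht
    have h1 := hr.perf (full_mem N749.BGSU.main (w i).isSg hB.1 (hB.2 𝔮 hq) hs ht)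
    clear hs ht
    induction h1 using Submodule.span_induction with
    | mem m hm =>
      obtain ⟨X, hX, Y, hY, rfl⟩ := hm
      obtain ⟨y1, hy1, e1, k1⟩ := ih' X (hr.sk X hX) (trace_zero hr hX)
      obtain ⟨y2, hy2, e2, k2⟩ := pair H hne (w i) (w be) hq (hr.sk Y hY) (trace_zero hr hY)
      refine ⟨y1 * y2 - y2 * y1, der_br hq y1 hy1 y2 hy2, fun x => ?_, fun t ht x => ?_⟩
      · have e2' : ∀ x, y2 (φ i x) = φ i (Y *ᵥ x) := e2
        rw [LinearMap.sub_apply, Module.End.mul_apply, Module.End.mul_apply, e2', e1, e1, e2',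
          ← map_sub, Matrix.mulVec_mulVec, Matrix.mulVec_mulVec, ← Matrix.sub_mulVec]
      · rw [LinearMap.sub_apply, Module.End.mul_apply, Module.End.mul_apply]
        rcases Finset.mem_insert.mp ht with rfl | ht
        · have k2' : ∀ x, y2 (φ t x) = 0 := fun x => by
            rw [k2, Matrix.zero_mulVec, map_zero]
          obtain ⟨m1, hm1⟩ := mat_spE (H.hq t) (w t) (der_spE hq hy1)
          rw [k2', map_zero, hm1, k2', sub_zero]
        · obtain ⟨m2, hm2⟩ := mat_spE (H.hq t) (w t) (der_spE hq hy2)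
          rw [k1 t ht, map_zero, hm2, k1 t ht, sub_zero]
    | zero =>
      exact ⟨0, Submodule.zero_mem _, fun x => by
        rw [LinearMap.zero_apply, Matrix.zero_mulVec, map_zero], fun t _ x => by
        rw [LinearMap.zero_apply]⟩
    | add a b _ _ ha hb =>
      obtain ⟨ya, hya, ea, ka⟩ := ha
      obtain ⟨yb, hyb, eb, kb⟩ := hb
      exact ⟨ya + yb, Submodule.add_mem _ hya hyb, fun x => by
        rw [LinearMap.add_apply, Matrix.add_mulVec, map_add, ea, eb], fun t ht x => by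
        rw [LinearMap.add_apply, ka t ht, kb t ht, add_zero]⟩
    | smul c a _ ha =>
      obtain ⟨ya, hya, ea, ka⟩ := ha
      exact ⟨c • ya, Submodule.smul_mem _ c hya, fun x => by
        rw [LinearMap.smul_apply, Matrix.smul_mulVec, map_smul, ea], fun t ht x => by
        rw [LinearMap.smul_apply, ka t ht, smul_zero]⟩

/-- **All full subalgebras have the same derived algebra on the parts.** -/
theorem sjI [Fintype ι] [DecidableEq ι] {z : ι → Module.End ℚ A.H1} {al : ι → ℝ}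
    (H : HGI A z al) {𝔮 : Submodule ℚ (Module.End ℚ A.H1)} (hq : A.Full 𝔮)
    {X : Module.End ℝ (Fin g → ℂ)} (hX : X ∈ spE A (der A.NA : Set (Module.End ℚ A.H1))) :
    ∃ y ∈ spE A (der 𝔮 : Set (Module.End ℚ A.H1)), ∀ i, ∀ x ∈ V0 A (z i) (al i), X x = y x := by
  have h1 : ∀ a : ι, ∃ (N : ℕ) (sg : Fin N → ℝ) (φ : VN N →ₗ[ℝ] (Fin g → ℂ)),
      WN A (z a) (al a) N sg φ := by
    intro a
    obtain ⟨W, hW⟩ := N755.BGWA.main g A (z a) (al a) (H.hq a)
    exact N455.BGWB.main g A (z a) (al a) (H.hq a) W hW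
  choose N sg φ w using h1
  have hXN : X ∈ spE A (A.NA : Set (Module.End ℚ A.H1)) := der_spE full_NA hX
  have h2 : ∀ a : ι, ∃ m : MN (N a), ∀ x, X (φ a x) = φ a (m *ᵥ x) := fun a =>
    mat_spE (H.hq a) (w a) hXN
  choose m hm using h2
  have h3 : ∀ a : ι, ∃ y ∈ spE A (der 𝔮 : Set (Module.End ℚ A.H1)),
      (∀ x, y (φ a x) = φ a (m a *ᵥ x)) ∧
        ∀ be ∈ (Finset.univ : Finset ι).erase a, ∀ x, y (φ be x) = 0 := by
    intro a
    have hr := N755.BGRR.main g A (z a) (al a) (H.hq a) (N a) (sg a) (φ a) (w a) A.NA full_NA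
    have hma : m a ∈ rN A (der A.NA) (φ a) := ⟨X, hX, hm a⟩
    exact one_place H N sg φ w hq a _ (Finset.notMem_erase a _) (m a)
      (hr.sk _ hma) (trace_zero hr hma)
  choose y hy e k using h3
  refine ⟨∑ a, y a, Submodule.sum_mem _ fun a _ => hy a, fun i x hx => ?_⟩
  have hsum : ∑ a, y a ∈ spE A (A.NA : Set (Module.End ℚ A.H1)) :=
    Submodule.sum_mem _ fun a _ => der_spE hq (hy a)
  have h5 := (w i).gen (X - ∑ a, y a)
    (fun P hP => spE_comm (Submodule.sub_mem _ hXN hsum) hP)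
    (fun u => by
      rw [LinearMap.sub_apply, LinearMap.sum_apply, Finset.sum_eq_single i, e, hm, sub_self]
      · intro b _ hb
        exact k b i (Finset.mem_erase.mpr ⟨fun h => hb h.symm, Finset.mem_univ _⟩) u
      · intro h
        exact absurd (Finset.mem_univ _) h)
    x hx
  rw [LinearMap.sub_apply, sub_eq_zero] at h5
  exact h5

/-- the union of the parts -/
def UI (A : AbVar g) (z : ι → Module.End ℚ A.H1) (al : ι → ℝ) : Set (Fin g → ℂ) :=
  {u | ∃ i, u ∈ V0 A (z i) (al i)}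

theorem rpartI [Fintype ι] {z : ι → Module.End ℚ A.H1} {al : ι → ℝ} (H : HGI A z al) :
    RPart A (UI A z al) where
  stab X hX u hu := by
    obtain ⟨i, hi⟩ := hu
    exact ⟨i, V0_NA (H.hq i).mem hX hi⟩
  der 𝔮 h𝔮 X hX := by
    classical
    obtain ⟨y, hy, h1⟩ := sjI H h𝔮 hX
    exact ⟨y, hy, fun u ⟨i, hi⟩ => h1 i u hi⟩

end Run7.h2.OB
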