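import Pool.Agent.Run7.h2.OB.GJ
import Pool.Agent.N768.BGPD

set_option autoImplicit false
set_option linter.unusedSectionVars false

/-!
# Links between two places and the signatures

If the places of two full subalgebras are linked then the signatures agree, up to a sign.
-/

open Module Matrix

noncomputable section

namespace Run7.h2.OB

open Pool.Agent Pool.Agent.N208.BT

variable {N N' : ℕ} {sg : Fin N → ℝ} {sg' : Fin N' → ℝ}

/-- application of a homomorphism to the coordinates -/
def ap (τ : ℂ →+* ℂ) (x : VN N) : VN N := fun i => τ (x i)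

theorem ap_mulVec (τ : ℂ →+* ℂ) (m : MN N) (x : VN N) : ap τ (m *ᵥ x) = m.map τ *ᵥ ap τ x := by
  funext i
  simp only [ap, Matrix.mulVec, dotProduct, map_sum, map_mul, Matrix.map_apply]

theorem ap_add (τ : ℂ →+* ℂ) (x y : VN N) : ap τ (x + y) = ap τ x + ap τ y := by
  funext i
  simp only [ap, Pi.add_apply, map_add]

theorem ap_smul (τ : ℂ →+* ℂ) (c : ℂ) (x : VN N) : ap τ (c • x) = τ c • ap τ x := by
  funext i
  simp only [ap, Pi.smul_apply, smul_eq_mul, map_mul]

theorem ap_zero (τ : ℂ →+* ℂ) : ap τ (0 : VN N) = 0 := by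
  funext i
  simp only [ap, Pi.zero_apply, map_zero]

/-- Schur's lemma -/
theorem schur (hN : 0 < N) {S : Set (MN N)} (hS : Irrs S) {T : MN N}
    (hT : ∀ X ∈ S, T * X = X * T) : ∃ c : ℂ, T = c • 1 := by
  have : Nonempty (Fin N) := ⟨⟨0, hN⟩⟩
  obtain ⟨c, hc⟩ := Module.End.exists_eigenvalue (Matrix.toLin' T)
  have h1 := hS (Module.End.eigenspace (Matrix.toLin' T) c) (fun X hX u hu => by
    rw [Module.End.mem_eigenspace_iff, Matrix.toLin'_apply] at hu ⊢
    rw [Matrix.mulVec_mulVec, hT X hX, ← Matrix.mulVec_mulVec, hu, Matrix.mulVec_smul])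
  rcases h1 with h1 | h1
  · exact absurd h1 hc
  · refine ⟨c, ?_⟩
    apply Matrix.mulVec_injective
    funext u
    have h2 : u ∈ Module.End.eigenspace (Matrix.toLin' T) c := by
      rw [h1]
      exact Submodule.mem_top
    rw [Module.End.mem_eigenspace_iff, Matrix.toLin'_apply] at h2
    rw [h2, Matrix.smul_mulVec, Matrix.one_mulVec]

/-- the values of the form on the diagonal -/
theorem hs_self (sg : Fin N → ℝ) (x : VN N) : hs sg x x = ((∑ i, sg i * Complex.normSq (x i) : ℝ) : ℂ) := by
  unfold hs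
  rw [Complex.ofReal_sum]
  refine Finset.sum_congr rfl fun i _ => ?_
  rw [Complex.ofReal_mul, mul_assoc]
  congr 1
  exact Complex.mul_conj (x i)

theorem hs_ap_self (sg : Fin N → ℝ) {τ : ℂ →+* ℂ} (hn : ∀ c, Complex.normSq (τ c) = Complex.normSq c)
    (x : VN N) : hs sg (ap τ x) (ap τ x) = hs sg x x := by
  rw [hs_self, hs_self]
  congr 1
  exact Finset.sum_congr rfl fun i _ => by rw [ap, hn]

/-- the numbers of the signs -/
theorem card_le {c : ℝ} {S : Matrix (Fin N') (Fin N) ℂ}
    (h : ∀ u : VN N, ∑ j, sg' j * Complex.normSq ((S *ᵥ u) j) =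
      c * ∑ i, sg i * Complex.normSq (u i)) (hsg' : IsSg sg') {e e' : ℝ} (he' : e' = 1 ∨ e' = -1)
    (hc : 0 < c * e * e') :
    Fintype.card {i // sg i = e} ≤ Fintype.card {j // sg' j = e'} := by
  classical
  let ex : ({i // sg i = e} → ℂ) →ₗ[ℂ] VN N :=
    { toFun := fun u i => if hi : sg i = e then u ⟨i, hi⟩ else 0
      map_add' := fun u v => by
        funext i
        by_cases hi : sg i = e
        · simp [hi]
        · simp [hi]
      map_smul' := fun a u => by
        funext i
        by_cases hi : sg i = e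
        · simp [hi]
        · simp [hi] }
  have hex : ∀ u i, ex u i = if hi : sg i = e then u ⟨i, hi⟩ else 0 := fun u i => rfl
  let re : VN N' →ₗ[ℂ] ({j // sg' j = e'} → ℂ) := LinearMap.funLeft ℂ ℂ Subtype.val
  let f := re.comp ((Matrix.toLin' S).comp ex)
  have hf : ∀ u j, f u j = (S *ᵥ ex u) j.1 := fun u j => rfl
  have hinj : Function.Injective f := by
    rw [injective_iff_map_eq_zero]
    intro u hu
    have h1 : ∑ i, sg i * Complex.normSq (ex u i) = e * ∑ i, Complex.normSq (ex u i) := by
      rw [Finset.mul_sum]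
      refine Finset.sum_congr rfl fun i _ => ?_
      by_cases hi : sg i = e
      · rw [hi]
      · rw [hex, dif_neg hi, map_zero, mul_zero, mul_zero]
    have h2 : ∑ j, sg' j * Complex.normSq ((S *ᵥ ex u) j) =
        -e' * ∑ j, Complex.normSq ((S *ᵥ ex u) j) := by
      rw [Finset.mul_sum]
      refine Finset.sum_congr rfl fun j _ => ?_
      by_cases hj : sg' j = e'
      · have h3 : (S *ᵥ ex u) j = 0 := congrFun hu ⟨j, hj⟩
        rw [h3, map_zero, mul_zero, mul_zero]
      · have h3 : sg' j = -e' := by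
          rcases hsg' j with h4 | h4 <;> rcases he' with h5 | h5
          · exact absurd (h4.trans h5.symm) hj
          · rw [h4, h5, neg_neg]
          · rw [h4, h5]
          · exact absurd (h4.trans h5.symm) hj
        rw [h3]
    have h3 := h (ex u)
    rw [h1, h2] at h3
    have h4 : 0 ≤ ∑ j, Complex.normSq ((S *ᵥ ex u) j) :=
      Finset.sum_nonneg fun j _ => Complex.normSq_nonneg _
    have h5 : 0 ≤ ∑ i, Complex.normSq (ex u i) :=
      Finset.sum_nonneg fun i _ => Complex.normSq_nonneg _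
    have he2 : e' * e' = 1 := by
      rcases he' with h | h <;> rw [h] <;> norm_num
    have h6 : ∑ i, Complex.normSq (ex u i) = 0 := by
      have h7 : (c * e * e') * ∑ i, Complex.normSq (ex u i) =
          -∑ j, Complex.normSq ((S *ᵥ ex u) j) := by
        linear_combination (-e') * h3 - (∑ j, Complex.normSq ((S *ᵥ ex u) j)) * he2
      by_contra h8
      have h9 := mul_pos hc (lt_of_le_of_ne h5 (Ne.symm h8))
      linarith
    funext i
    have h7 := (Finset.sum_eq_zero_iff_of_nonneg (fun i _ => Complex.normSq_nonneg _)).1 h6 i.1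
      (Finset.mem_univ _)
    rw [Complex.normSq_eq_zero, hex, dif_pos i.2] at h7
    exact h7
  have h1 := LinearMap.finrank_le_finrank_of_injective hinj
  rwa [Module.finrank_fintype_fun_eq_card, Module.finrank_fintype_fun_eq_card] at h1

/-- the number of the positive signs -/
def pos (sg : Fin N → ℝ) : ℕ := Fintype.card {i // sg i = 1}

/-- the number of the negative signs -/
def neg (sg : Fin N → ℝ) : ℕ := Fintype.card {i // sg i = -1}

theorem pos_add_neg (hsg : IsSg sg) : pos sg + neg sg = N := by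
  classical
  have h1 : Fintype.card {i // sg i = 1} + Fintype.card {i // ¬ sg i = 1} = N := by
    rw [Fintype.card_subtype_compl, Fintype.card_fin]
    have := Fintype.card_subtype_le fun i => sg i = 1
    rw [Fintype.card_fin] at this
    omega
  have h2 : Fintype.card {i // ¬ sg i = 1} = Fintype.card {i // sg i = -1} := by
    refine Fintype.card_congr (Equiv.subtypeEquivRight fun i => ?_)
    rcases hsg i with h | h
    · rw [h]
      norm_num
    · rw [h]
      norm_num
  unfold pos neg
  omega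

/-- **Linked places have the same signature, up to a sign.** -/
theorem sig_of_link (hN : 0 < N) (hN' : 0 < N') (hsg : IsSg sg) (hsg' : IsSg sg')
    {𝔟 : Submodule ℝ (MN N × MN N')} {𝔯 : Submodule ℝ (MN N)} {𝔯' : Submodule ℝ (MN N')}
    (hi : Irrs (𝔯 : Set (MN N))) (hi' : Irrs (𝔯' : Set (MN N')))
    (hsk : ∀ m ∈ 𝔯, IsSks sg m) (hsk' : ∀ m ∈ 𝔯', IsSks sg' m)
    (h1 : ∀ m ∈ 𝔯, ∃ m' ∈ 𝔯', (m, m') ∈ 𝔟) (h2 : ∀ m' ∈ 𝔯', ∃ m ∈ 𝔯, (m, m') ∈ 𝔟)
    {τ : ℂ →+* ℂ} (hτ : ∀ c, τ (τ c) = c) (hn : ∀ c, Complex.normSq (τ c) = Complex.normSq c)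
    (hst : ∀ c, τ (star c) = star (τ c)) (hre : ∀ r : ℝ, τ (r : ℂ) = r)
    {S : Matrix (Fin N') (Fin N) ℂ} (hS0 : S ≠ 0) (hS : ∀ p ∈ 𝔟, p.2 * S = S * p.1.map τ) :
    (pos sg = pos sg' ∧ neg sg = neg sg') ∨ (pos sg = neg sg' ∧ neg sg = pos sg') := by
  -- the kernel
  have hact : ∀ m m', (m, m') ∈ 𝔟 → ∀ x : VN N, S *ᵥ ap τ (m *ᵥ x) = m' *ᵥ (S *ᵥ ap τ x) := by
    intro m m' hm x
    rw [ap_mulVec, Matrix.mulVec_mulVec, Matrix.mulVec_mulVec, ← hS _ hm]
  have happ : ∀ x : VN N, ap τ (ap τ x) = x := fun x => by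
    funext i
    exact hτ (x i)
  have hinj : ∀ x : VN N, S *ᵥ ap τ x = 0 → x = 0 := by
    let U : Submodule ℂ (VN N) :=
      { carrier := {x | S *ᵥ ap τ x = 0}
        zero_mem' := by
          change S *ᵥ ap τ 0 = 0
          rw [ap_zero, Matrix.mulVec_zero]
        add_mem' := fun {a b} ha hb => by
          change S *ᵥ ap τ (a + b) = 0
          rw [ap_add, Matrix.mulVec_add, show S *ᵥ ap τ a = 0 from ha,
            show S *ᵥ ap τ b = 0 from hb, add_zero]
        smul_mem' := fun c a ha => by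
          change S *ᵥ ap τ (c • a) = 0
          rw [ap_smul, Matrix.mulVec_smul, show S *ᵥ ap τ a = 0 from ha, smul_zero] }
    rcases hi U (fun m hm x hx => by
      obtain ⟨m', -, hmm⟩ := h1 m hm
      change S *ᵥ ap τ (m *ᵥ x) = 0
      rw [hact m m' hmm, show S *ᵥ ap τ x = 0 from hx, Matrix.mulVec_zero]) with h | h
    · intro x hx
      have h3 : x ∈ U := hx
      rw [h, Submodule.mem_bot] at h3
      exact h3
    · exfalso
      apply hS0
      apply Matrix.mulVec_injective
      funext x
      have h3 : ap τ x ∈ U := by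
        rw [h]
        exact Submodule.mem_top
      have h4 : S *ᵥ ap τ (ap τ x) = 0 := h3
      rw [happ] at h4
      rw [h4, Matrix.zero_mulVec]
  have hNN : N ≤ N' := by
    have h3 : Function.Injective (Matrix.toLin' S) := by
      rw [injective_iff_map_eq_zero]
      intro x hx
      have h4 := hinj (ap τ x) (by rw [happ]; exact hx)
      rw [← happ x, h4, ap_zero]
    have h4 := LinearMap.finrank_le_finrank_of_injective h3
    rwa [Module.finrank_fin_fun, Module.finrank_fin_fun] at h4
  have hran : LinearMap.range (Matrix.toLin' S) = ⊤ := by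
    let U : Submodule ℂ (VN N') := LinearMap.range (Matrix.toLin' S)
    rcases hi' U (by
      rintro m' hm' _ ⟨x, rfl⟩
      obtain ⟨m, -, hmm⟩ := h2 m' hm'
      refine ⟨ap τ (m *ᵥ ap τ x), ?_⟩
      rw [Matrix.toLin'_apply, Matrix.toLin'_apply, hact m m' hmm, happ]) with h | h
    · exfalso
      apply hS0
      apply Matrix.mulVec_injective
      funext x
      have h3 : S *ᵥ x ∈ U := ⟨x, rfl⟩
      rw [h, Submodule.mem_bot] at h3
      rw [h3, Matrix.zero_mulVec]
    · exact h
  have hNN' : N' ≤ N := by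
    have h3 := LinearMap.finrank_range_le (Matrix.toLin' S)
    rwa [hran, finrank_top, Module.finrank_fin_fun, Module.finrank_fin_fun] at h3
  have hEq : N = N' := le_antisymm hNN hNN'
  -- the form
  let kap : VN N → VN N → ℂ := fun x y => τ (hs sg' (S *ᵥ ap τ x) (S *ᵥ ap τ y))
  have hkadd : ∀ x x' y, kap (x + x') y = kap x y + kap x' y := fun x x' y => by
    simp only [kap]
    rw [ap_add, Matrix.mulVec_add, N768.BG.hs_add_left, map_add]
  have hksm : ∀ (c : ℂ) x y, kap (c • x) y = c * kap x y := fun c x y => by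
    simp only [kap]
    rw [ap_smul, Matrix.mulVec_smul, N768.BG.hs_smul_left, map_mul, hτ]
  have hkst : ∀ x y, star (kap x y) = kap y x := fun x y => by
    simp only [kap]
    rw [← hst, N768.BG.hs_star]
  have hkinv : ∀ m ∈ 𝔯, ∀ x y, kap (m *ᵥ x) y + kap x (m *ᵥ y) = 0 := by
    intro m hm x y
    obtain ⟨m', hm', hmm⟩ := h1 m hm
    simp only [kap]
    rw [hact m m' hmm, hact m m' hmm, ← map_add, hsk' m' hm', map_zero]
  let T : MN N := Matrix.of fun i j => (sg i : ℂ) * kap (Pi.single j 1) (Pi.single i 1)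
  have hT1 : ∀ x i, (T *ᵥ x) i = (sg i : ℂ) * kap x (Pi.single i 1) := by
    intro x i
    have h3 : x = ∑ j, x j • (Pi.single j 1 : VN N) := by
      funext k
      rw [Finset.sum_apply, Finset.sum_eq_single k]
      · rw [Pi.smul_apply, Pi.single_eq_same, smul_eq_mul, mul_one]
      · intro j _ hj
        rw [Pi.smul_apply, Pi.single_eq_of_ne (Ne.symm hj), smul_zero]
      · intro h
        exact absurd (Finset.mem_univ k) h
    have h4 : ∀ s : Finset (Fin N), kap (∑ j ∈ s, x j • (Pi.single j 1 : VN N)) (Pi.single i 1) =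
        ∑ j ∈ s, x j * kap (Pi.single j 1) (Pi.single i 1) := by
      classical
      intro s
      induction s using Finset.induction_on with
      | empty =>
        rw [Finset.sum_empty, Finset.sum_empty]
        have h5 := hksm 0 (0 : VN N) (Pi.single i 1)
        rwa [zero_smul, zero_mul] at h5
      | insert a s ha ih =>
        rw [Finset.sum_insert ha, Finset.sum_insert ha, hkadd, hksm, ih]
    conv_rhs => rw [h3]
    rw [h4, Finset.mul_sum]
    simp only [Matrix.mulVec, dotProduct, T, Matrix.of_apply]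
    exact Finset.sum_congr rfl fun j _ => by ring
  have hs2 : ∀ i, (sg i : ℂ) * sg i = 1 := by
    intro i
    rcases hsg i with h | h <;> rw [h] <;> norm_num
  have hT2 : ∀ x y, hs sg (T *ᵥ x) y = kap x y := by
    intro x y
    have h3 : y = ∑ j, y j • (Pi.single j 1 : VN N) := by
      funext k
      rw [Finset.sum_apply, Finset.sum_eq_single k]
      · rw [Pi.smul_apply, Pi.single_eq_same, smul_eq_mul, mul_one]
      · intro j _ hj
        rw [Pi.smul_apply, Pi.single_eq_of_ne (Ne.symm hj), smul_zero]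
      · intro h
        exact absurd (Finset.mem_univ k) h
    have h4 : ∀ s : Finset (Fin N), kap (∑ j ∈ s, y j • (Pi.single j 1 : VN N)) x =
        ∑ j ∈ s, y j * kap (Pi.single j 1) x := by
      classical
      intro s
      induction s using Finset.induction_on with
      | empty =>
        rw [Finset.sum_empty, Finset.sum_empty]
        have h5 := hksm 0 (0 : VN N) x
        rwa [zero_smul, zero_mul] at h5
      | insert a s ha ih =>
        rw [Finset.sum_insert ha, Finset.sum_insert ha, hkadd, hksm, ih]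
    rw [← hkst y x]
    conv_rhs => rw [h3]
    rw [h4, star_sum]
    unfold hs
    refine Finset.sum_congr rfl fun i _ => ?_
    rw [hT1, star_mul', hkst]
    linear_combination (kap x (Pi.single i 1) * star (y i)) * hs2 i
  have hTc : ∀ m ∈ (𝔯 : Set (MN N)), T * m = m * T := by
    intro m hm
    have h3 : T * m - m * T = 0 := by
      refine N768.BG.mat_eq_zero hsg fun x y => ?_
      have h4 := hkinv m hm x y
      have h5 := hsk m hm (T *ᵥ x) y
      rw [← hT2, ← hT2] at h4
      rw [Matrix.sub_mulVec, ← Matrix.mulVec_mulVec, ← Matrix.mulVec_mulVec, sub_eq_add_neg,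
        N768.BG.hs_add_left, ← neg_one_smul ℂ (m *ᵥ (T *ᵥ x)), N768.BG.hs_smul_left]
      linear_combination h4 - h5
    exact sub_eq_zero.1 h3
  obtain ⟨c, hc⟩ := schur hN hi hTc
  have hk : ∀ x y, kap x y = c * hs sg x y := by
    intro x y
    rw [← hT2, hc, Matrix.smul_mulVec, Matrix.one_mulVec, N768.BG.hs_smul_left]
  -- the constant is real and not zero
  have hcr : (c.re : ℂ) = c := by
    have e0 : hs sg (Pi.single ⟨0, hN⟩ 1) (Pi.single ⟨0, hN⟩ 1) = (sg ⟨0, hN⟩ : ℂ) := by
      rw [N768.BG.hs_single_left, Pi.single_eq_same, star_one, mul_one]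
    have e1 := hkst (Pi.single ⟨0, hN⟩ 1) (Pi.single ⟨0, hN⟩ 1)
    rw [hk, e0, star_mul'] at e1
    have e2 : star (sg ⟨0, hN⟩ : ℂ) = sg ⟨0, hN⟩ := Complex.conj_ofReal _
    rw [e2] at e1
    have e3 := mul_right_cancel₀ (N768.BG.sg_ne hsg _) e1
    exact Complex.conj_eq_iff_re.1 e3
  have hq : ∀ u : VN N, ∑ j, sg' j * Complex.normSq ((S *ᵥ u) j) =
      c.re * ∑ i, sg i * Complex.normSq (u i) := by
    intro u
    have e1 := hk (ap τ u) (ap τ u)
    simp only [kap] at e1
    rw [happ, hs_ap_self sg hn, hs_self, hs_self] at e1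
    rw [hre, ← hcr, ← Complex.ofReal_mul] at e1
    exact_mod_cast e1
  have hc0 : c.re ≠ 0 := by
    intro h0
    have h3 : (Pi.single ⟨0, hN'⟩ 1 : VN N') ∈ LinearMap.range (Matrix.toLin' S) := by
      rw [hran]
      exact Submodule.mem_top
    obtain ⟨u, hu⟩ := h3
    have h4 := hq u
    rw [Matrix.toLin'_apply] at hu
    rw [h0, zero_mul, hu, Finset.sum_eq_single ⟨0, hN'⟩] at h4
    · rw [Pi.single_eq_same, map_one, mul_one] at h4
      rcases hsg' ⟨0, hN'⟩ with h5 | h5 <;> rw [h5] at h4 <;> norm_num at h4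
    · intro j _ hj
      rw [Pi.single_eq_of_ne hj, map_zero, mul_zero]
    · intro h
      exact absurd (Finset.mem_univ _) h
  have hp := pos_add_neg hsg
  have hp' := pos_add_neg hsg'
  rcases lt_or_gt_of_ne hc0 with hlt | hgt
  · right
    have h3 : pos sg ≤ neg sg' := card_le hq hsg' (e := 1) (e' := -1) (Or.inr rfl) (by nlinarith)
    have h4 : neg sg ≤ pos sg' := card_le hq hsg' (e := -1) (e' := 1) (Or.inl rfl) (by nlinarith)
    omega
  · left
    have h3 : pos sg ≤ pos sg' := card_le hq hsg' (e := 1) (e' := 1) (Or.inl rfl) (by nlinarith)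
    have h4 : neg sg ≤ neg sg' := card_le hq hsg' (e := -1) (e' := -1) (Or.inr rfl) (by nlinarith)
    omega

end Run7.h2.OB
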