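import Pool.Agent.Run7.h2.OB.Lk
import Pool.Agent.Run7.h2.OB.TZ
import Pool.Agent.N521.LCHBG
import Pool.Agent.N773.BTWA2

set_option autoImplicit false
set_option linter.unusedSectionVars false

/-!
# Linked places have proportional multiplicities
-/

open Module Matrix

noncomputable section

namespace Run7.h2.OB

open Pool.Agent Pool.Agent.Y102 Pool.Agent.N208.BT Pool.Agent.N208.AD

variable {g : ℕ} {A : AbVar g} {z : Module.End ℚ A.H1} {al : ℝ}

section burn

variable (h : HQ A z al) {N : ℕ} {sg : Fin N → ℝ} {φ : VN N →ₗ[ℝ] (Fin g → ℂ)}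
  (w : WN A z al N sg φ)

/-- the algebra of the matrices which come from endomorphisms commuting with `EA` -/
def SQ (h : HQ A z al) (w : WN A z al N sg φ) : Subalgebra ℂ (MN N) where
  carrier := {m | ∃ y : Module.End ℝ (Fin g → ℂ), (∀ P ∈ A.EA, y * A.ext P = A.ext P * y) ∧
    ∀ x, y (φ x) = φ (m *ᵥ x)}
  mul_mem' := by
    rintro a b ⟨y, hy, h1⟩ ⟨y', hy', h1'⟩
    refine ⟨y * y', fun P hP => ?_, fun x => ?_⟩
    · rw [mul_assoc, hy' P hP, ← mul_assoc, hy P hP, mul_assoc]
    · rw [Module.End.mul_apply, h1', h1, Matrix.mulVec_mulVec]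
  add_mem' := by
    rintro a b ⟨y, hy, h1⟩ ⟨y', hy', h1'⟩
    refine ⟨y + y', fun P hP => ?_, fun x => ?_⟩
    · rw [add_mul, mul_add, hy P hP, hy' P hP]
    · rw [LinearMap.add_apply, h1, h1', Matrix.add_mulVec, map_add]
  algebraMap_mem' := by
    intro c
    refine ⟨c.re • (1 : Module.End ℝ (Fin g → ℂ)) + c.im • (al⁻¹ • A.ext z), fun P hP => ?_,
      fun x => ?_⟩
    · have e1 : A.ext z * A.ext P = A.ext P * A.ext z := by
        rw [← ext_mul, ← ext_mul, h.cen P hP]
      rw [add_mul, mul_add, smul_mul_assoc, smul_mul_assoc, smul_mul_assoc, mul_smul_comm,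
        mul_smul_comm, mul_smul_comm, one_mul, mul_one, e1]
    · rw [LinearMap.add_apply, LinearMap.smul_apply, LinearMap.smul_apply, LinearMap.smul_apply,
        Module.End.one_apply, ← w.mulI, ← map_smul, ← map_smul, ← map_add,
        ← Pool.Agent.N521.LCHBG.real_smul,
        Algebra.algebraMap_eq_smul_one, Matrix.smul_mulVec, Matrix.one_mulVec]

include h w in
theorem burnQ (m : MN N) : ∃ y : Module.End ℝ (Fin g → ℂ),
    (∀ P ∈ A.EA, y * A.ext P = A.ext P * y) ∧ ∀ x, y (φ x) = φ (m *ᵥ x) := by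
  refine Pool.Agent.N768.BG.burnside_mat w.pos (SQ h w) (fun U hU => ?_) m
  refine w.simple U fun X hX x hx y hy => ?_
  obtain ⟨m', hm'⟩ := Pool.Agent.N441.BGSJ.mat_NA h w hX
  have h1 : m' ∈ SQ h w := by
    refine ⟨A.ext X, fun P hP => ?_, hm'⟩
    rw [← ext_mul, ← ext_mul, A.NA_comm hX hP]
  have h2 := hU m' h1 x hx
  have h3 : y = m' *ᵥ x := w.inj (by rw [← hy, hm'])
  rw [h3]
  exact h2

/-- the operators on `V₀` -/
def Y (h : HQ A z al) (w : WN A z al N sg φ) (m : MN N) : Module.End ℝ (Fin g → ℂ) :=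
  Classical.choose (burnQ h w m)

theorem Y_comm (m : MN N) {P : Module.End ℚ A.H1} (hP : P ∈ A.EA) :
    Y h w m * A.ext P = A.ext P * Y h w m := (Classical.choose_spec (burnQ h w m)).1 P hP

theorem Y_phi (m : MN N) (x : VN N) : Y h w m (φ x) = φ (m *ᵥ x) :=
  (Classical.choose_spec (burnQ h w m)).2 x

include w in
theorem uniq {y y' : Module.End ℝ (Fin g → ℂ)} (hy : ∀ P ∈ A.EA, y * A.ext P = A.ext P * y)
    (hy' : ∀ P ∈ A.EA, y' * A.ext P = A.ext P * y') (e : ∀ x, y (φ x) = y' (φ x))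
    {v : Fin g → ℂ} (hv : v ∈ V0 A z al) : y v = y' v := by
  have h1 := w.gen (y - y') (fun P hP => by rw [sub_mul, mul_sub, hy P hP, hy' P hP])
    (fun x => by rw [LinearMap.sub_apply, e, sub_self]) v hv
  rwa [LinearMap.sub_apply, sub_eq_zero] at h1

theorem Y_z (m : MN N) (v : Fin g → ℂ) : Y h w m (A.ext z v) = A.ext z (Y h w m v) :=
  LinearMap.congr_fun (Y_comm h w m h.mem) v

theorem Y_eq {m m' : MN N} {y : Module.End ℝ (Fin g → ℂ)}
    (hy : ∀ P ∈ A.EA, y * A.ext P = A.ext P * y) (e : ∀ x, y (φ x) = φ (m *ᵥ x))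
    {v : Fin g → ℂ} (hv : v ∈ V0 A z al) : y v = Y h w m v :=
  uniq w hy (fun P hP => Y_comm h w m hP) (fun x => by rw [e, Y_phi]) hv

theorem Y_mul (m m' : MN N) {v : Fin g → ℂ} (hv : v ∈ V0 A z al) :
    Y h w m (Y h w m' v) = Y h w (m * m') v := by
  have h1 := Y_eq h w (m := m * m') (m' := 0) (y := Y h w m * Y h w m') (fun P hP => by
    rw [mul_assoc, Y_comm h w m' hP, ← mul_assoc, Y_comm h w m hP, mul_assoc]) (fun x => by
    rw [Module.End.mul_apply, Y_phi, Y_phi, Matrix.mulVec_mulVec]) hv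
  rw [← h1, Module.End.mul_apply]

theorem Y_one {v : Fin g → ℂ} (hv : v ∈ V0 A z al) : Y h w 1 v = v := by
  have h1 := Y_eq h w (m := 1) (m' := 0) (y := 1) (fun P hP => by rw [one_mul, mul_one]) (fun x => by
    rw [Module.End.one_apply, Matrix.one_mulVec]) hv
  rw [← h1, Module.End.one_apply]

theorem Y_add (m m' : MN N) {v : Fin g → ℂ} (hv : v ∈ V0 A z al) :
    Y h w (m + m') v = Y h w m v + Y h w m' v := by
  have h1 := Y_eq h w (m := m + m') (m' := 0) (y := Y h w m + Y h w m') (fun P hP => by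
    rw [add_mul, mul_add, Y_comm h w m' hP, Y_comm h w m hP]) (fun x => by
    rw [LinearMap.add_apply, Y_phi, Y_phi, Matrix.add_mulVec, map_add]) hv
  rw [← h1, LinearMap.add_apply]

theorem Y_smul (r : ℝ) (m : MN N) {v : Fin g → ℂ} (hv : v ∈ V0 A z al) :
    Y h w (r • m) v = r • Y h w m v := by
  have h1 := Y_eq h w (m := r • m) (m' := 0) (y := r • Y h w m) (fun P hP => by
    rw [smul_mul_assoc, mul_smul_comm, Y_comm h w m hP]) (fun x => by
    rw [LinearMap.smul_apply, Y_phi, Matrix.smul_mulVec, map_smul]) hv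
  rw [← h1, LinearMap.smul_apply]

theorem Y_zero {v : Fin g → ℂ} (hv : v ∈ V0 A z al) : Y h w 0 v = 0 := by
  have h1 := Y_smul h w 0 0 hv
  rwa [zero_smul, zero_smul] at h1

theorem Y_sum {ι : Type} (s : Finset ι) (f : ι → MN N) {v : Fin g → ℂ} (hv : v ∈ V0 A z al) :
    Y h w (∑ i ∈ s, f i) v = ∑ i ∈ s, Y h w (f i) v := by
  classical
  induction s using Finset.induction_on with
  | empty => rw [Finset.sum_empty, Finset.sum_empty, Y_zero h w hv]
  | insert a s ha ih => rw [Finset.sum_insert ha, Finset.sum_insert ha, Y_add h w _ _ hv, ih]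

theorem Y_mem (m : MN N) {v : Fin g → ℂ} (hv : v ∈ V0 A z al) : Y h w m v ∈ V0 A z al :=
  Pool.Agent.N773.BTWA2.V0_stab (fun x => Y_z h w m x) hv

/-- the matrix of the signs -/
def Dg (sg : Fin N → ℝ) : MN N := Matrix.diagonal fun i => (sg i : ℂ)

theorem Dg_sq (hsg : IsSg sg) : Dg sg * Dg sg = 1 := by
  unfold Dg
  rw [Matrix.diagonal_mul_diagonal, ← Matrix.diagonal_one]
  congr 1
  funext i
  rcases hsg i with h | h <;> rw [h] <;> norm_num

theorem EA_cx {P : Module.End ℚ A.H1} (hP : P ∈ A.EA) (c : ℂ) (x : Fin g → ℂ) :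
    A.ext P (c • x) = c • A.ext P x :=
  AbVar.CR_complex A.endAlg (Pool.Agent.N773.BTWA2.mem_CR hP) c x

/-- the complex structure -/
theorem z_eq {v : Fin g → ℂ} (hv : v ∈ V0 A z al) :
    A.ext z v = ((al : ℂ) * Complex.I) • Y h w (Dg sg) v := by
  have e1 : ∀ x, A.ext z (φ x) = φ (al • (Complex.I • x)) := by
    intro x
    rw [map_smul, w.mulI, smul_smul, mul_inv_cancel₀ h.ne, one_smul]
  let JC : Module.End ℝ (Fin g → ℂ) :=
    { toFun := fun v => ((al : ℂ) * Complex.I) • v
      map_add' := fun a b => smul_add _ _ _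
      map_smul' := fun c a => smul_comm _ _ _ }
  have hJC : ∀ v, JC v = ((al : ℂ) * Complex.I) • v := fun v => rfl
  have h1 := uniq w (y := A.ext z) (y' := JC * Y h w (Dg sg)) (fun P hP => by
    rw [← ext_mul, ← ext_mul, h.cen P hP]) (fun P hP => by
    refine LinearMap.ext fun u => ?_
    have h2 : Y h w (Dg sg) (A.ext P u) = A.ext P (Y h w (Dg sg) u) :=
      LinearMap.congr_fun (Y_comm h w (Dg sg) hP) u
    rw [Module.End.mul_apply, Module.End.mul_apply, Module.End.mul_apply, Module.End.mul_apply,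
      hJC, hJC, EA_cx hP, h2]) (fun x => by
    have h3 : (fun i => (sg i : ℂ) * (Complex.I * (Dg sg *ᵥ x) i)) = Complex.I • x := by
      funext i
      unfold Dg
      rw [Matrix.mulVec_diagonal, Pi.smul_apply, smul_eq_mul]
      rcases w.isSg i with h | h <;> rw [h] <;> push_cast <;> ring
    rw [Module.End.mul_apply, Y_phi, e1, hJC, ← smul_smul, w.cx, h3, map_smul]
    rfl) hv
  exact h1

/-- the eigenvectors -/
theorem eig_iff {e : ℝ} (he : e * e = 1) {v : Fin g → ℂ} :
    Eig A z (e * al) v ↔ v ∈ V0 A z al ∧ Y h w (Dg sg) v = e • v := by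
  have hne : ((al : ℂ) * Complex.I) ≠ 0 :=
    mul_ne_zero (Complex.ofReal_ne_zero.2 h.ne) Complex.I_ne_zero
  have e1 : ∀ v : Fin g → ℂ, e • v = (e : ℂ) • v := fun v => rfl
  have e2 : (((e * al : ℝ) : ℂ) * Complex.I) = (al : ℂ) * Complex.I * (e : ℂ) := by
    push_cast
    ring
  constructor
  · intro hv
    have hv0 : v ∈ V0 A z al := eig_mem_V0 h.mem (by linear_combination (al ^ 2) * he) hv
    refine ⟨hv0, ?_⟩
    have h1 : A.ext z v = _ := hv
    rw [z_eq h w hv0, e2, ← smul_smul ((al : ℂ) * Complex.I) (e : ℂ) v] at h1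
    rw [e1]
    exact smul_right_injective _ hne h1
  · rintro ⟨hv0, hv⟩
    unfold Eig
    rw [z_eq h w hv0, hv, e2, ← smul_smul ((al : ℂ) * Complex.I) (e : ℂ) v, e1]

/-- the eigenspace, a complex space -/
def Ec (A : AbVar g) {z : Module.End ℚ A.H1} (hz : z ∈ A.EA) (b : ℝ) : Submodule ℂ (Fin g → ℂ) where
  carrier := {x | Eig A z b x}
  zero_mem' := by
    change A.ext z 0 = _ • 0
    rw [map_zero, smul_zero]
  add_mem' := by
    intro x y hx hy
    change A.ext z (x + y) = _ • (x + y)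
    rw [map_add, show A.ext z x = _ from hx, show A.ext z y = _ from hy, smul_add]
  smul_mem' := by
    intro c x hx
    change A.ext z (c • x) = _ • (c • x)
    rw [EA_cx hz, show A.ext z x = _ from hx, smul_comm]

/-- the multiplicity space -/
def TM (h : HQ A z al) (w : WN A z al N sg φ) (i₀ : Fin N) : Submodule ℝ (Fin g → ℂ) where
  carrier := {v | v ∈ V0 A z al ∧ Y h w (Matrix.single i₀ i₀ 1) v = v}
  zero_mem' := ⟨Submodule.zero_mem _, map_zero _⟩
  add_mem' := fun {a b} ha hb =>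
    ⟨Submodule.add_mem _ ha.1 hb.1, by rw [map_add, ha.2, hb.2]⟩
  smul_mem' := fun c a ha => ⟨Submodule.smul_mem _ c ha.1, by rw [map_smul, ha.2]⟩

theorem mul_single_single (i j k : Fin N) :
    (Matrix.single i j (1 : ℂ)) * Matrix.single j k 1 = Matrix.single i k 1 := by
  rw [Matrix.single_mul_single_same, one_mul]

theorem Dg_single (i k : Fin N) :
    Dg sg * Matrix.single i k 1 = (sg i) • Matrix.single i k (1 : ℂ) := by
  unfold Dg
  ext a b
  rw [Matrix.diagonal_mul, Matrix.smul_apply, Complex.real_smul, Matrix.single_apply]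
  split_ifs with hab
  · rw [hab.1]
  · rw [mul_zero, mul_zero]

/-- the projection on the part with the sign `e` -/
theorem sum_single {e : ℝ} (he : e = 1 ∨ e = -1) (hsg : IsSg sg) :
    ∑ i : {i // sg i = e}, Matrix.single i.1 i.1 (1 : ℂ) = (2⁻¹ : ℝ) • ((1 : MN N) + e • Dg sg) := by
  classical
  ext a b
  rw [Matrix.sum_apply, Matrix.smul_apply, Matrix.add_apply, Matrix.smul_apply, Complex.real_smul,
    Complex.real_smul]
  unfold Dg
  by_cases hab : a = b
  · subst hab
    rw [Matrix.one_apply_eq, Matrix.diagonal_apply_eq]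
    by_cases ha : sg a = e
    · rw [Finset.sum_eq_single ⟨a, ha⟩]
      · rw [Matrix.single_apply_same, ha]
        rcases he with h | h <;> rw [h] <;> norm_num
      · intro i _ hi
        refine Matrix.single_apply_of_ne _ _ _ _ _ ?_
        rintro ⟨h1, -⟩
        exact hi (Subtype.ext h1)
      · intro h
        exact absurd (Finset.mem_univ _) h
    · rw [Finset.sum_eq_zero]
      · have h1 : sg a = -e := by
          rcases hsg a with h4 | h4 <;> rcases he with h5 | h5
          · exact absurd (h4.trans h5.symm) ha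
          · rw [h4, h5, neg_neg]
          · rw [h4, h5]
          · exact absurd (h4.trans h5.symm) ha
        rw [h1]
        rcases he with h | h <;> rw [h] <;> norm_num
      · intro i _
        refine Matrix.single_apply_of_ne _ _ _ _ _ ?_
        rintro ⟨h1, -⟩
        exact ha (h1 ▸ i.2)
  · rw [Matrix.one_apply_ne hab, Matrix.diagonal_apply_ne _ hab, mul_zero, add_zero, mul_zero,
      Finset.sum_eq_zero]
    intro i _
    refine Matrix.single_apply_of_ne _ _ _ _ _ ?_
    rintro ⟨h1, h2⟩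
    exact hab (h1.symm.trans h2)

/-- **The multiplicities.** -/
theorem dim_eig (i₀ : Fin N) {e : ℝ} (he : e = 1 ∨ e = -1) :
    finrank ℝ (Ec A h.mem (e * al)) = Fintype.card {i // sg i = e} * finrank ℝ (TM h w i₀) := by
  classical
  have hee : e * e = 1 := by
    rcases he with h | h <;> rw [h] <;> norm_num
  let F : ({i // sg i = e} → TM h w i₀) ≃ₗ[ℝ] (Ec A h.mem (e * al)) :=
    { toFun := fun t => ⟨∑ i, Y h w (Matrix.single i.1 i₀ 1) (t i).1, by
        change Eig A z (e * al) _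
        rw [eig_iff h w hee]
        refine ⟨Submodule.sum_mem _ fun i _ => Y_mem h w _ (t i).2.1, ?_⟩
        rw [map_sum, Finset.smul_sum]
        refine Finset.sum_congr rfl fun i _ => ?_
        rw [Y_mul h w _ _ (t i).2.1, Dg_single, Y_smul h w _ _ (t i).2.1, i.2]⟩
      map_add' := fun a b => Subtype.ext (by
        change ∑ i, Y h w (Matrix.single i.1 i₀ 1) ((a i).1 + (b i).1) = _
        rw [Finset.sum_congr rfl fun i _ => map_add _ _ _, Finset.sum_add_distrib]
        rfl)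
      map_smul' := fun c a => Subtype.ext (by
        change ∑ i, Y h w (Matrix.single i.1 i₀ 1) (c • (a i).1) = _
        rw [Finset.sum_congr rfl fun i _ => map_smul _ _ _, ← Finset.smul_sum]
        rfl)
      invFun := fun v i => ⟨Y h w (Matrix.single i₀ i.1 1) v.1, by
        have hv : v.1 ∈ V0 A z al := ((eig_iff h w hee).1 v.2).1
        refine ⟨Y_mem h w _ hv, ?_⟩
        rw [Y_mul h w _ _ hv, mul_single_single]⟩
      left_inv := fun t => by
        funext j
        refine Subtype.ext ?_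
        change Y h w (Matrix.single i₀ j.1 1) (∑ i, Y h w (Matrix.single i.1 i₀ 1) (t i).1) = (t j).1
        rw [map_sum, Finset.sum_eq_single j]
        · rw [Y_mul h w _ _ (t j).2.1, mul_single_single, (t j).2.2]
        · intro i _ hi
          rw [Y_mul h w _ _ (t i).2.1, Matrix.single_mul_single_of_ne, Y_zero h w (t i).2.1]
          exact fun h => hi (Subtype.ext h.symm)
        · intro h
          exact absurd (Finset.mem_univ _) h
      right_inv := fun v => by
        have hv := (eig_iff h w hee).1 v.2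
        refine Subtype.ext ?_
        change ∑ i : {i // sg i = e}, Y h w (Matrix.single i.1 i₀ 1)
          (Y h w (Matrix.single i₀ i.1 1) v.1) = v.1
        have h1 : ∀ i ∈ (Finset.univ : Finset {i // sg i = e}), Y h w (Matrix.single i.1 i₀ 1)
            (Y h w (Matrix.single i₀ i.1 1) v.1) = Y h w (Matrix.single i.1 i.1 1) v.1 :=
          fun i _ => by rw [Y_mul h w _ _ hv.1, mul_single_single]
        rw [Finset.sum_congr rfl h1, ← Y_sum h w _ _ hv.1, sum_single he w.isSg,
          Y_smul h w _ _ hv.1, Y_add h w _ _ hv.1, Y_smul h w _ _ hv.1, Y_one h w hv.1, hv.2,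
          smul_smul, hee, one_smul, ← two_smul ℝ v.1, smul_smul, inv_mul_cancel₀ two_ne_zero,
          one_smul] }
  rw [← F.finrank_eq, Module.finrank_pi_fintype, Finset.sum_const, Finset.card_univ, smul_eq_mul]

end burn

/-- the multiplicity of an eigenvalue on the tangent space -/
def mult (A : AbVar g) (z : Module.End ℚ A.H1) (b : ℝ) : ℕ := Set.finrank ℂ {x | Eig A z b x}

theorem two_mult (hz : z ∈ A.EA) (b : ℝ) : finrank ℝ (Ec A hz b) = 2 * mult A z b := by
  have h1 : Submodule.span ℂ {x | Eig A z b x} = Ec A hz b :=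
    le_antisymm (Submodule.span_le.2 fun x hx => hx) fun x hx => Submodule.subset_span hx
  unfold mult Set.finrank
  rw [h1]
  exact finrank_real_of_complex _

/-- the multiplicities at one place -/
theorem mult_eq (h : HQ A z al) {N : ℕ} {sg : Fin N → ℝ} {φ : VN N →ₗ[ℝ] (Fin g → ℂ)}
    (w : WN A z al N sg φ) : ∃ d : ℕ, 2 * mult A z al = pos sg * d ∧
      2 * mult A z (-al) = neg sg * d := by
  refine ⟨finrank ℝ (TM h w ⟨0, w.pos⟩), ?_, ?_⟩
  · have h1 := dim_eig h w ⟨0, w.pos⟩ (e := 1) (Or.inl rfl)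
    rw [two_mult, one_mul] at h1
    exact h1
  · have h1 := dim_eig h w ⟨0, w.pos⟩ (e := -1) (Or.inr rfl)
    rw [two_mult, neg_one_mul] at h1
    exact h1

/-- **Linked places have proportional multiplicities.** -/
theorem dims_of_link {z' : Module.End ℚ A.H1} {be : ℝ} (h : HQ A z al) (h' : HQ A z' be)
    {N N' : ℕ} {sg : Fin N → ℝ} {sg' : Fin N' → ℝ} {φ : VN N →ₗ[ℝ] (Fin g → ℂ)}
    {φ' : VN N' →ₗ[ℝ] (Fin g → ℂ)} (w : WN A z al N sg φ) (w' : WN A z' be N' sg' φ')
    {𝔮 : Submodule ℚ (Module.End ℚ A.H1)} (hq : A.Full 𝔮) (hL : Linked (rN2 A (der 𝔮) φ φ')) :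
    mult A z al * mult A z' (-be) = mult A z (-al) * mult A z' be ∨
      mult A z al * mult A z' be = mult A z (-al) * mult A z' (-be) := by
  have hR := Pool.Agent.N755.BGRR.main g A z al h N sg φ w 𝔮 hq
  have hR' := Pool.Agent.N755.BGRR.main g A z' be h' N' sg' φ' w' 𝔮 hq
  have hp : (pos sg = pos sg' ∧ neg sg = neg sg') ∨ (pos sg = neg sg' ∧ neg sg = pos sg') := by
    have h1 : ∀ m ∈ rN A (der 𝔮) φ, ∃ m' ∈ rN A (der 𝔮) φ', (m, m') ∈ rN2 A (der 𝔮) φ φ' := by
      rintro m ⟨y, hy, e⟩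
      obtain ⟨m', e'⟩ := Pool.Agent.N441.BGSJ.mat_spE h' w' (Pool.Agent.N441.BGSJ.der_spE hq hy)
      exact ⟨m', ⟨y, hy, e'⟩, ⟨y, hy, e, e'⟩⟩
    have h2 : ∀ m' ∈ rN A (der 𝔮) φ', ∃ m ∈ rN A (der 𝔮) φ, (m, m') ∈ rN2 A (der 𝔮) φ φ' := by
      rintro m' ⟨y, hy, e'⟩
      obtain ⟨m, e⟩ := Pool.Agent.N441.BGSJ.mat_spE h w (Pool.Agent.N441.BGSJ.der_spE hq hy)
      exact ⟨m, ⟨y, hy, e⟩, ⟨y, hy, e, e'⟩⟩
    rcases hL with ⟨S, hS0, hS⟩ | ⟨S, hS0, hS⟩
    · refine sig_of_link w.pos w'.pos w.isSg w'.isSg hR.irr hR'.irr hR.sk hR'.sk h1 h2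
        (τ := RingHom.id ℂ) (fun c => rfl) (fun c => rfl) (fun c => rfl) (fun r => rfl) hS0 ?_
      intro p hp
      rw [hS p hp]
      congr 1
    · exact sig_of_link w.pos w'.pos w.isSg w'.isSg hR.irr hR'.irr hR.sk hR'.sk h1 h2
        (τ := starRingEnd ℂ) Complex.conj_conj Complex.normSq_conj (fun c => rfl)
        Complex.conj_ofReal hS0 hS
  obtain ⟨d, e1, e2⟩ := mult_eq h w
  obtain ⟨d', e1', e2'⟩ := mult_eq h' w'
  rcases hp with ⟨k1, k2⟩ | ⟨k1, k2⟩
  · left
    rw [← k1] at e1'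
    rw [← k2] at e2'
    have h3 : 4 * (mult A z al * mult A z' (-be)) = 4 * (mult A z (-al) * mult A z' be) := by
      calc 4 * (mult A z al * mult A z' (-be)) = (2 * mult A z al) * (2 * mult A z' (-be)) := by ring
        _ = (2 * mult A z (-al)) * (2 * mult A z' be) := by rw [e1, e2', e2, e1']; ring
        _ = _ := by ring
    omega
  · right
    rw [← k2] at e1'
    rw [← k1] at e2'
    have h3 : 4 * (mult A z al * mult A z' be) = 4 * (mult A z (-al) * mult A z' (-be)) := by
      calc 4 * (mult A z al * mult A z' be) = (2 * mult A z al) * (2 * mult A z' be) := by ring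
        _ = (2 * mult A z (-al)) * (2 * mult A z' (-be)) := by rw [e1, e2', e2, e1']; ring
        _ = _ := by ring
    omega

end Run7.h2.OB
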