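import Pool.Agent.N208.OU.Defs

set_option autoImplicit false

/-!
# 1-motives over abelian varieties with unitary places: the definitions

See `Pool/Agent/Results/MP_12eca1_ag/OneMotivesManyPlaces.lean`.
-/

open Module Matrix Pool.Agent.Y102 Pool.Agent.N208.OneM

noncomputable section

namespace Run7.h2.OB.SO

variable {g g' k : ℕ} (A : AbVar g) (C : AbVar g')

/-- The multiplicity of the eigenvalue `i a` of `z` on the tangent space. -/
def multiplicity (z : EndQ A) (a : ℝ) : ℕ := Set.finrank ℂ {x | Eigen A z a x}

/-- `i a` is an eigenvalue of `z` on the tangent space. -/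
def Occurs (z : EndQ A) (a : ℝ) : Prop := ∃ x, x ≠ 0 ∧ Eigen A z a x

/-- `a` is different from zero, and `i a` and `- i a` are eigenvalues of `z` on the tangent space. -/
def IndefiniteAt (z : EndQ A) (a : ℝ) : Prop := a ≠ 0 ∧ Occurs A z a ∧ Occurs A z (-a)

/-- The eigenspace of `i a` on the tangent space is a simple module over the endomorphisms. -/
def SimpleAt (z : EndQ A) (a : ℝ) : Prop :=
  ∀ x y, x ≠ 0 → Eigen A z a x → Eigen A z a y →
    y ∈ Submodule.span ℂ {w | ∃ P, IsEndo A P ∧ w = A.ext P x}

/-- **A ball place**: indefinite, the signature is `(1, n)`, and `i a` and `- i a` are separated. -/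
def BallPlace (z : EndQ A) (a : ℝ) : Prop :=
  IndefiniteAt A z a ∧ SimpleAt A z a ∧ Separates A z a (-a)

/-- `ℚ[z]` is a field on the image of `z`: a polynomial in `z` which is not zero on the image of `z` is
injective there. -/
def IsFieldPart (z : EndQ A) : Prop :=
  ∀ q : Polynomial ℚ, (∀ v, Polynomial.aeval z q (z v) = 0 → z v = 0) ∨
    ∀ v, Polynomial.aeval z q (z v) = 0

/-- The type of the place: a ball place; or `ℚ[z]` is a field and some place of `z` is a ball place; or
the commutant of the endomorphisms is a division algebra of a prime degree. -/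
def GoodType (z : EndQ A) (a : ℝ) : Prop :=
  BallPlace A z a ∨ (IsFieldPart A z ∧ ∃ b, BallPlace A z b) ∨
    ∃ p : ℕ, p.Prime ∧ IsDivision A z ∧ HasDegree A z p

/-- **A unitary place**: `z` is central and skew-symmetric and generates the centre on its image, the
signature at `a` is indefinite, with one of the types above. -/
structure UnitaryPlace (z : EndQ A) (a : ℝ) : Prop where
  part : CentralPart A z
  indefinite : IndefiniteAt A z a
  type : GoodType A z a

/-- **The signatures are different.** If `(r, s)` and `(r', s')` are the multiplicities of `i a`, `- i a` (for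
`z`) and of `i b`, `- i b` (for `z'`) on the tangent space, then `r : s ≠ r' : s'` and
`r : s ≠ s' : r'`. -/
def DifferentSignatures (z z' : EndQ A) (a b : ℝ) : Prop :=
  multiplicity A z a * multiplicity A z' (-b) ≠ multiplicity A z (-a) * multiplicity A z' b ∧
    multiplicity A z a * multiplicity A z' b ≠ multiplicity A z (-a) * multiplicity A z' (-b)

/-- `Z` is an element of the centre of the algebra of the endomorphisms. -/
def IsCentral (Z : EndQ A) : Prop := IsEndo A Z ∧ Commutes A Z

/-- **The separation of places of two central endomorphisms.** If the algebra generated by a set `T`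
generates together with the centre of the algebra of the endomorphisms the algebra of all
endomorphisms of `H_1(A, ℚ)` which commute with the endomorphisms of `A`, then it contains an element
which acts as `q(z)` on the image of `z` and as `q'(z')` on the image of `z'`, with `q(i a) ≠ q'(i b)`. -/
def SeparatesTwo (z z' : EndQ A) (a b : ℝ) : Prop :=
  ∀ T : Set (EndQ A), (∀ X ∈ T, Commutes A X) →
    (∀ X, Commutes A X → X ∈ Alg A (T ∪ {Z | IsCentral A Z})) →
    ∃ q q', ∃ X ∈ Alg A T, IsPoly A z X q ∧ IsPoly A z' X q' ∧ value a q ≠ value b q'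

/-- **Several unitary places**, of one or of several central endomorphisms. Different places have
different signatures, or they are separated. -/
structure UnitaryPlaces (z : Fin k → EndQ A) (a : Fin k → ℝ) : Prop where
  place : ∀ i, UnitaryPlace A (z i) (a i)
  apart : ∀ i j, i ≠ j → DifferentSignatures A (z i) (z j) (a i) (a j) ∨
    (SeparatesTwo A (z i) (z j) (a i) (a j) ∧ SeparatesTwo A (z i) (z j) (-(a i)) (a j))

/-- The part of the Hodge group of `C` which acts trivially on the eigenspaces of the `z i` for
`± i a i` acts trivially on the Mumford-Tate domain of the factor `A` of `C`: if a real combination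
`∑ c_j X_j` of elements `X_j` of the derived algebra `[𝔤, 𝔤]` of the Lie algebra of the Hodge group of
`C` is zero on these eigenspaces, then its restriction to `H_1(A, ℝ) = ℂ ^ g` commutes with the
multiplication by `i`. -/
def DomainOfPlaces (f : A.H1 →ₗ[ℚ] C.H1) (p : C.H1 →ₗ[ℚ] A.H1) (z : Fin k → EndQ C)
    (a : Fin k → ℝ) : Prop :=
  ∀ (m : ℕ) (c : Fin m → ℝ) (X : Fin m → EndQ C), (∀ j, X j ∈ derivedLie C) →
    (∀ i x, Eigen C (z i) (a i) x ∨ Eigen C (z i) (-(a i)) x → ∑ j, c j • C.ext (X j) x = 0) →
      ∀ x, ∑ j, c j • A.ext (restr A C f p (X j)) (Complex.I • x) =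
        Complex.I • ∑ j, c j • A.ext (restr A C f p (X j)) x

end Run7.h2.OB.SO
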