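import Pool.Agent.N208.OU.Main
import Pool.Agent.Run7.h2.OB.SG
import Pool.Agent.Run7.h2.OB.SODefs

set_option autoImplicit false

/-!
# 1-motives over abelian varieties with unitary places: the proof
-/

open Module Matrix Pool.Agent Pool.Agent.Y102 Pool.Agent.R917.OM Pool.Agent.R917.BX
  Pool.Agent.W516.DR Pool.Agent.H204R3.GP Pool.Agent.N208.UR Pool.Agent.N208.OneM

noncomputable section

namespace Run7.h2.OB.SO

variable {g n s : ℕ} {A : AbVarG g} {u : Fin n → Fin g → ℂ} {v : Fin s → Fin g → ℂ}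
  {ℓ : Fin n → Fin s → ℂ} {G : Subgroup (GL (Betti g n s) ℂ)}
  {g' : ℕ} {C : AbVar g'} {f : A.toAbVar.H1 →ₗ[ℚ] C.H1} {p : C.H1 →ₗ[ℚ] A.toAbVar.H1}

theorem sep_conv {z : EndQ C} {a b : ℝ} (h : Separates C z a b) : PU.Separates C z a b := by
  intro B₁ h1 h2
  have hB : ∀ X, X ∈ Alg C (B₁ : Set (EndQ C)) ↔ X ∈ B₁ := fun X => alg_eq C B₁
  obtain ⟨q, X, hX, h3, h4⟩ := h (B₁ : Set (EndQ C)) (fun X hX => h1 X hX) fun X hX => h2 X hX
  exact ⟨q, X, (hB X).1 hX, h3, h4⟩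

theorem sep2_conv {z z' : EndQ C} {a b : ℝ} (h : SeparatesTwo C z z' a b) :
    PU.SeparatesTwo C z z' a b := by
  intro B₁ h1 h2
  have hB : ∀ X, X ∈ Alg C (B₁ : Set (EndQ C)) ↔ X ∈ B₁ := fun X => alg_eq C B₁
  obtain ⟨q, q', X, hX, h3, h4, h5⟩ := h (B₁ : Set (EndQ C)) (fun X hX => h1 X hX)
    fun X hX => h2 X hX
  exact ⟨q, q', X, (hB X).1 hX, h3, h4, h5⟩

theorem ball_conv {z : EndQ C} {a : ℝ} (h : BallPlace C z a) : PU.BallPlace C z a :=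
  ⟨h.2.1, sep_conv h.2.2⟩

theorem central_conv {z : EndQ C} (h : CentralPart C z) : PU.CentralPart C z :=
  ⟨h.endo, h.central, h.skew, h.generates⟩

theorem places_conv {k : ℕ} {z : Fin k → EndQ C} {a : Fin k → ℝ} (h : UnitaryPlaces C z a) :
    PU.UnitaryPlaces C z a where
  place := fun i => by
    have h1 := h.place i
    refine ⟨central_conv h1.part, h1.indefinite, ?_⟩
    rcases h1.type with h2 | ⟨h2, b, h3⟩ | h2
    · exact Or.inl (ball_conv h2)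
    · exact Or.inr (Or.inl ⟨h2, b, h3.1, ball_conv h3⟩)
    · exact Or.inr (Or.inr h2)
  apart := fun i j hij => by
    rcases h.apart i j hij with h1 | ⟨h1, h2⟩
    · exact Or.inl h1
    · exact Or.inr ⟨sep2_conv h1, sep2_conv h2⟩

theorem hdom {k : ℕ} {z : Fin k → EndQ C} {a : Fin k → ℝ} (hF : IsFactor A.toAbVar C f p)
    (hU : Run7.h2.OB.HGI C z a) (hD : DomainOfPlaces A.toAbVar C f p z a)
    (N : Matrix (Fin (2 * g)) (Fin (2 * g)) ℝ)
    (hN : N208.AM.RelR (N208.OU.hB p) (AbVar.JJ : (Fin g' → ℂ) →ₗ[ℝ] (Fin g' → ℂ)) N) :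
    N208.BT.DomU (Run7.h2.OB.UI C z a) (N208.OU.hB p) N := by
  refine N208.OU.domU_of (hfac hF) (fun q hq h0 x => ?_) hN
  obtain ⟨m, c, X, hX⟩ := Submodule.mem_span_set'.1 hq
  choose Y hY hYe using fun j => (X j).2
  have h1 : ∀ y, q.1 y = ∑ j, c j • C.ext (Y j) y := by
    intro y
    rw [← hX, Prod.fst_sum, LinearMap.sum_apply]
    refine Finset.sum_congr rfl fun j _ => ?_
    rw [hYe j]
    rfl
  have h2 : ∀ y, q.2 y = ∑ j, c j • A.ext (restr A.toAbVar C f p (Y j)) y := by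
    intro y
    rw [← hX, Prod.snd_sum, LinearMap.sum_apply]
    refine Finset.sum_congr rfl fun j _ => ?_
    rw [hYe j]
    rfl
  rw [h2, h2]
  refine hD m c Y (fun j => ?_) (fun i y hy => ?_) x
  · refine (Submodule.span_mono ?_) (hY j)
    rintro _ ⟨X, hX, Y, hY, rfl⟩
    exact ⟨X, hX, Y, hY, rfl⟩
  · rw [← h1]
    refine h0 y ⟨i, ?_⟩
    have hz : z i ∈ C.EA := (hU.hq i).mem
    rcases hy with hy | hy
    · exact N208.BT.eig_mem_V0 hz rfl hy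
    · exact N208.BT.eig_mem_V0 hz (by ring) hy

theorem main_three {U : Set (Fin g' → ℂ)} (hM : IsOneMotive A u v ℓ) (hG : IsAlgebraicSubgroup G)
    (hP : ContainsPeriods A u v ℓ G) (hF : IsFactor A.toAbVar C f p) (hr : N208.BT.RPart C U)
    (hα : ∀ N, N208.AM.RelR (N208.OU.hB p) (AbVar.JJ : (Fin g' → ℂ) →ₗ[ℝ] (Fin g' → ℂ)) N →
      N208.BT.DomU U (N208.OU.hB p) N) (hR : RigidCentre C) : mumfordTate A u v ℓ ≤ G := by
  obtain ⟨T, hT, q, hq, hqT⟩ := hP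
  rw [periodMatrix_eq] at hqT
  have hpt := ptM_of hG hT hq hqT
  obtain ⟨K₁, hK₁, hrat⟩ := exists_rat_mult A (pt (dat A u v ℓ)) (by
    rintro (i | l)
    · exact Or.inl (hM.point i)
    · exact Or.inl (hM.dual l))
  have hdet := N208.OU.detJ_of (hfac hF) (hR.toRigid C) hr hα
  obtain ⟨h1, h2⟩ := Pool.Agent.R917.DT.hodge_stab6 hpt
    ⟨hM.point, hM.neg, hM.sub, hM.log⟩ hrat hdet
  refine sInf_le ⟨hG, fun z hz => ?_⟩
  obtain ⟨x, hx, hxe⟩ := Pool.Agent.R917.exp_mem hpt.grp fun k =>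
    ((h2 k).smul ((Complex.log z).re : ℂ)).add ((h1 k).smul ((Complex.log z).im : ℂ))
  exact ⟨x, hx, deligne_exp A hz hxe⟩

theorem main_two {U : Set (Fin g' → ℂ)} (hM : IsOneMotive A u v ℓ) (hG : IsAlgebraicSubgroup G)
    (hP : ContainsPeriods A u v ℓ G) (hF : IsFactor A.toAbVar C f p) (hr : N208.BT.RPart C U)
    (hα : ∀ N, N208.AM.RelR (N208.OU.hB p) (AbVar.JJ : (Fin g' → ℂ) →ₗ[ℝ] (Fin g' → ℂ)) N →
      N208.BT.DomU U (N208.OU.hB p) N) {Z : Matrix (Betti g n s) (Betti g n s) ℚ}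
    (hZ : Z ∈ derived (mtLie A u v ℓ)) (t : ℂ) :
    IsIn G (NormedSpace.exp (t • cplx Z)) := by
  obtain ⟨T, hT, q, hq, hqT⟩ := hP
  rw [periodMatrix_eq] at hqT
  have hpt := ptM_of hG hT hq hqT
  obtain ⟨K₁, hK₁, hrat⟩ := exists_rat_mult A (pt (dat A u v ℓ)) (by
    rintro (i | l)
    · exact Or.inl (hM.point i)
    · exact Or.inl (hM.dual l))
  have hLg := gg_Lg hpt
  have hfc := hfac hF
  obtain ⟨𝔮, h𝔮⟩ : ∃ 𝔮, 𝔮 = Pool.Agent.R917.DT.Fac.qq f p (aa (gg A.toAbVar n s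
    {M | ∃ x ∈ G, (x : Matrix (Betti g n s) (Betti g n s) ℂ) = M})) := ⟨_, rfl⟩
  have hfull : C.Full 𝔮 := by
    rw [h𝔮]
    exact hfc.qq_full (fun X hX Y hY => hLg.full.br X hX Y hY) (fun D lam => ⟨_, hLg.per D lam, rfl⟩)
  have hJ := N208.OU.ZZ_J hfc hfull hr hα
  have hbr : ∀ x ∈ N208.OU.ZZ f p 𝔮, ∀ y ∈ N208.OU.ZZ f p 𝔮,
      x * y - y * x ∈ (Pool.Agent.Y102.der 𝔮).map (Pool.Agent.R917.DT.rs f p) :=
    fun x hx y hy => N208.OU.ZZ_br hfc hfull hx hy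
  have hle : (Pool.Agent.Y102.der 𝔮).map (Pool.Agent.R917.DT.rs f p) ≤ N208.OU.ZZ f p 𝔮 := le_sup_right
  have hle' : (Pool.Agent.Y102.der 𝔮).map (Pool.Agent.R917.DT.rs f p) ≤ aa (gg A.toAbVar n s
      {M | ∃ x ∈ G, (x : Matrix (Betti g n s) (Betti g n s) ℂ) = M}) := by
    rintro _ ⟨X, hX, rfl⟩
    have h1 := hfull.der_le hX
    rw [h𝔮] at h1
    exact h1.2
  have hNA := N208.OU.ZZ_NA hfc hfull
  -- the Lie algebra of the Mumford-Tate group is in the normalizer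
  have h1 : mtLie A u v ℓ ≤ N208.OU.LL A n s
      {M | ∃ x ∈ G, (x : Matrix (Betti g n s) (Betti g n s) ℂ) = M} (N208.OU.ZZ f p 𝔮) := by
    refine sInf_le ⟨fun X hX Y hY => N208.OU.LL_brr hNA hX hY fun x hx y hy =>
      hle (hbr x hx y hy), fun w => ⟨_, ?_, lie_deligne A w⟩⟩
    have hc := fun lam => N208.OU.exists_LL hpt ⟨hM.point, hM.neg, hM.sub, hM.log⟩ hrat hJ lam
    refine Submodule.add_mem _ (Submodule.smul_mem _ _ ?_) (Submodule.smul_mem _ _ ?_)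
    · refine N208.OU.mem_span_of_comp fun lam => ?_
      rw [N208.OU.comp_tW]
      exact (hc lam).2
    · refine N208.OU.mem_span_of_comp fun lam => ?_
      rw [N208.OU.comp_tJ]
      exact (hc lam).1
  obtain ⟨W, hW, hW1, hW2⟩ := Pool.Agent.R917.DT.weight hpt
  have h2 : Z ∈ N208.OU.gQ A n s
      {M | ∃ x ∈ G, (x : Matrix (Betti g n s) (Betti g n s) ℂ) = M} := by
    unfold derived at hZ
    refine (Submodule.span_le.2 ?_) hZ
    rintro _ ⟨X, hX, Y, hY, rfl⟩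
    exact N208.OU.LL_gQ hLg hW hW1 hW2 hle' (N208.OU.LL_brr hNA (h1 hX) (h1 hY) hbr)
  obtain ⟨L, hL, rfl⟩ := h2
  exact Pool.Agent.R917.exp_mem hpt.grp fun k => (hL.2 k).smul t

theorem main (g n s : ℕ) (A : AbVarG g) (u : Fin n → Fin g → ℂ) (v : Fin s → Fin g → ℂ)
    (ℓ : Fin n → Fin s → ℂ) (hM : IsOneMotive A u v ℓ)
    (G : Subgroup (GL (Betti g n s) ℂ)) (hG : IsAlgebraicSubgroup G)
    (hP : ContainsPeriods A u v ℓ G) (g' : ℕ) (C : AbVar g') (f : A.toAbVar.H1 →ₗ[ℚ] C.H1)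
    (p : C.H1 →ₗ[ℚ] A.toAbVar.H1) (k : ℕ) (z : Fin k → EndQ C) (a : Fin k → ℝ)
    (hF : IsFactor A.toAbVar C f p) (hU : UnitaryPlaces C z a)
    (hD : DomainOfPlaces A.toAbVar C f p z a) :
    (∀ Z ∈ derived (mtLie A u v ℓ), ∀ t : ℂ, IsIn G (NormedSpace.exp (t • cplx Z))) ∧
      (RigidCentre C → mumfordTate A u v ℓ ≤ G) := by
  have hH := (places_conv hU).toHGI C
  have hr := Run7.h2.OB.rpartI hH
  exact ⟨fun Z hZ t => main_two hM hG hP hF hr (fun N hN => hdom hF hH hD N hN) hZ t,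
    fun hR => main_three hM hG hP hF hr (fun N hN => hdom hF hH hD N hN) hR⟩

end Run7.h2.OB.SO
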