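import Pool.Agent.N521.LCHBG
import Pool.Agent.N208.BT.AllG
import Pool.Agent.N9.BTK

set_option autoImplicit false
set_option linter.unusedSectionVars false

/-!
# From one place to all places

Let `z` be a central skew-symmetric endomorphism of an abelian variety, such that `ℚ[z]` is a field on
the image of `z`. If a full subalgebra contains the long roots at one place, then it contains the long
roots at every place at which the signature is indefinite.
-/

open Module Matrix Polynomial

noncomputable section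

namespace Run7.h2.OB

open Pool.Agent Pool.Agent.Y102 Pool.Agent.W516.DR Pool.Agent.H204R3.GP Pool.Agent.W516.KC
  Pool.Agent.H204R3.SP Pool.Agent.TH119.MX Pool.Agent.R917 Pool.Agent.N208.AM Pool.Agent.N208.AD
  Pool.Agent.N208.BT

variable {g : ℕ} {A : AbVar g} {z : Module.End ℚ A.H1}

/-- `ℚ[z]` is a field on the image of `z`. -/
def FieldIm (z : Module.End ℚ A.H1) : Prop :=
  ∀ q : ℚ[X], aeval z q * z ≠ 0 → ∀ v, aeval z q (z v) = 0 → z v = 0

theorem aeval_comm_z (z : Module.End ℚ A.H1) (q : ℚ[X]) : aeval z q * z = z * aeval z q := by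
  have h1 : aeval z q * aeval z (X : ℚ[X]) = aeval z (X : ℚ[X]) * aeval z q := by
    rw [← map_mul, ← map_mul, mul_comm q (X : ℚ[X])]
  rwa [aeval_X] at h1

theorem aeval_comm (z : Module.End ℚ A.H1) (p q : ℚ[X]) :
    aeval z q * aeval z p = aeval z p * aeval z q := by
  rw [← map_mul, ← map_mul, mul_comm q p]

/-- inverses -/
theorem exists_inv (hF : FieldIm z) {q : ℚ[X]} (hq : aeval z q * z ≠ 0) :
    ∃ r : ℚ[X], aeval z r * (aeval z q * z) = z := by
  let T : ℚ[X] →ₗ[ℚ] Module.End ℚ A.H1 := (LinearMap.mulRight ℚ z).comp (aeval z).toLinearMap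
  have hT : ∀ p, T p = aeval z p * z := fun p => rfl
  let S : Submodule ℚ (Module.End ℚ A.H1) := LinearMap.range T
  let L : S →ₗ[ℚ] S := (LinearMap.mulLeft ℚ (aeval z q)).restrict (p := S) (q := S) (by
    rintro _ ⟨p, rfl⟩
    refine ⟨q * p, ?_⟩
    rw [hT, hT, LinearMap.mulLeft_apply, map_mul, mul_assoc])
  have hL : ∀ Y : S, ((L Y : S) : Module.End ℚ A.H1) = aeval z q * Y := fun Y => rfl
  have hinj : Function.Injective L := by
    rw [injective_iff_map_eq_zero]
    rintro ⟨_, p, rfl⟩ h
    have h1 : aeval z q * (aeval z p * z) = 0 := congrArg Subtype.val h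
    refine Subtype.ext ?_
    change aeval z p * z = 0
    refine LinearMap.ext fun v => ?_
    have h2 : z (aeval z p v) = 0 := by
      refine hF q hq _ ?_
      have h3 := LinearMap.congr_fun h1 v
      rw [aeval_comm_z z p] at h3
      exact h3
    rw [aeval_comm_z]
    exact h2
  have hsurj : Function.Surjective L :=
    (LinearMap.injective_iff_surjective (K := ℚ) (V := S) (f := L)).1 hinj
  obtain ⟨⟨_, r, rfl⟩, hr⟩ := hsurj ⟨z, 1, by rw [hT, map_one, one_mul]⟩
  refine ⟨r, ?_⟩
  have h1 : aeval z q * (aeval z r * z) = z := congrArg Subtype.val hr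
  rw [← mul_assoc, aeval_comm, mul_assoc] at h1
  exact h1

theorem cmp_smul (f : ℝ →ₗ[ℚ] ℚ) (c : ℝ) (x : Fin g → ℂ) :
    A.cmp f (c • x) = A.cmp (f.comp (LinearMap.mulLeft ℚ c)) x := by
  funext j
  rw [A.cmp_apply, A.cmp_apply, map_smul, Finsupp.smul_apply, smul_eq_mul, LinearMap.comp_apply,
    LinearMap.mulLeft_apply]

theorem cmpE_mem {M : Submodule ℚ (Module.End ℚ A.H1)} {R : Module.End ℝ (Fin g → ℂ)}
    (hR : R ∈ spE A (M : Set (Module.End ℚ A.H1))) : ∀ f : ℝ →ₗ[ℚ] ℚ, A.cmpE f R ∈ M := by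
  induction hR using Submodule.span_induction with
  | mem R hR =>
    obtain ⟨X, hX, rfl⟩ := hR
    intro f
    have h1 : A.cmpE f (A.ext X) = f 1 • X := by
      refine LinearMap.ext fun w => ?_
      rw [A.cmpE_apply, A.ext_apply, LinearMap.smul_apply, ← A.cmp_smul_per, one_smul]
    rw [h1]
    exact M.smul_mem _ hX
  | zero =>
    intro f
    have h1 : A.cmpE f 0 = 0 := by
      refine LinearMap.ext fun w => ?_
      rw [A.cmpE_apply, LinearMap.zero_apply, map_zero, LinearMap.zero_apply]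
    rw [h1]
    exact M.zero_mem
  | add a b _ _ ha hb =>
    intro f
    have h1 : A.cmpE f (a + b) = A.cmpE f a + A.cmpE f b := by
      refine LinearMap.ext fun w => ?_
      rw [A.cmpE_apply, LinearMap.add_apply, map_add, LinearMap.add_apply, A.cmpE_apply,
        A.cmpE_apply]
    rw [h1]
    exact M.add_mem (ha f) (hb f)
  | smul c a _ ha =>
    intro f
    have h1 : A.cmpE f (c • a) = A.cmpE (f.comp (LinearMap.mulLeft ℚ c)) a := by
      refine LinearMap.ext fun w => ?_
      rw [A.cmpE_apply, LinearMap.smul_apply, cmp_smul, A.cmpE_apply]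
    rw [h1]
    exact ha _

theorem mul_aeval_mem {M : Submodule ℚ (Module.End ℚ A.H1)} (hM : ∀ d ∈ M, d * z ∈ M)
    {R : Module.End ℝ (Fin g → ℂ)} (hR : R ∈ spE A (M : Set (Module.End ℚ A.H1))) (p : ℝ[X]) :
    R * aeval (A.ext z) p ∈ spE A (M : Set (Module.End ℚ A.H1)) := by
  have h1 : ∀ S ∈ spE A (M : Set (Module.End ℚ A.H1)),
      S * A.ext z ∈ spE A (M : Set (Module.End ℚ A.H1)) := by
    intro S hS
    induction hS using Submodule.span_induction with
    | mem S hS =>
      obtain ⟨X, hX, rfl⟩ := hS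
      rw [← Pool.Agent.N208.AD.ext_mul]
      exact mem_spE (hM X hX)
    | zero =>
      rw [zero_mul]
      exact Submodule.zero_mem _
    | add a b _ _ ha hb =>
      rw [add_mul]
      exact Submodule.add_mem _ ha hb
    | smul c a _ ha =>
      rw [smul_mul_assoc]
      exact Submodule.smul_mem _ _ ha
  induction p using Polynomial.induction_on with
  | C c =>
    rw [aeval_C, Algebra.algebraMap_eq_smul_one, mul_smul_comm, mul_one]
    exact Submodule.smul_mem _ _ hR
  | add p q hp hq =>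
    rw [map_add, mul_add]
    exact Submodule.add_mem _ hp hq
  | monomial n c hn =>
    rw [pow_succ, ← mul_assoc, map_mul, aeval_X, ← mul_assoc]
    exact h1 _ hn

/-- **Descent.** If a rational endomorphism agrees on `V₀` with an element of the real span of `M`, then
it agrees on the image of `z` with an element of `M`. -/
theorem desc {al : ℝ} (h : HQ A z al) (hF : FieldIm z) {M : Submodule ℚ (Module.End ℚ A.H1)}
    (hM : ∀ d ∈ M, d * z ∈ M) {Y : Module.End ℚ A.H1} (hY : Y * z = z * Y)
    (hMr : ∀ d ∈ M, ∀ r : ℚ[X], d * aeval z r ∈ M)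
    {W : Module.End ℝ (Fin g → ℂ)} (hW : W ∈ spE A (M : Set (Module.End ℚ A.H1)))
    (hy : ∀ x ∈ V0 A z al, A.ext Y x = W x) : ∃ W' ∈ M, Y * z = W' * z := by
  obtain ⟨f, hf⟩ : ∃ f, f = minpoly ℚ z := ⟨_, rfl⟩
  have hint : IsIntegral ℚ z := Algebra.IsIntegral.isIntegral z
  have hf0 : f ≠ 0 := by rw [hf]; exact minpoly.ne_zero hint
  have hfz : aeval z f = 0 := by rw [hf]; exact minpoly.aeval ℚ z
  obtain ⟨F, hFd0⟩ : ∃ F : ℝ[X], F = f.map (algebraMap ℚ ℝ) := ⟨_, rfl⟩
  have hFz : aeval (A.ext z) F = 0 := by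
    rw [hFd0, ← N9.BTK.ext_aeval, hfz, Pool.Agent.N208.AD.ext_zero]
  have hF0 : F ≠ 0 := by
    rw [hFd0]
    exact (Polynomial.map_ne_zero_iff (algebraMap ℚ ℝ).injective).2 hf0
  have hFd : F.natDegree = f.natDegree := by
    rw [hFd0]
    exact Polynomial.natDegree_map_eq_of_injective (algebraMap ℚ ℝ).injective f
  obtain ⟨P, hP⟩ : ∃ P : ℝ[X], P = X ^ 2 + C (al ^ 2) := ⟨_, rfl⟩
  have hPm : P.Monic := by
    rw [hP]
    exact monic_X_pow_add_C _ two_ne_zero
  have hPd : P.degree = 2 := by
    rw [hP]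
    exact degree_X_pow_add_C two_pos _
  have hPn : P.natDegree = 2 := natDegree_eq_of_degree_eq_some hPd
  have hPz : aeval (A.ext z) P =
      A.ext z * A.ext z + (al ^ 2) • (1 : Module.End ℝ (Fin g → ℂ)) := by
    rw [hP, map_add, map_pow, aeval_X, aeval_C, pow_two, Algebra.algebraMap_eq_smul_one]
  obtain ⟨x, hx, hx0⟩ := h.ex
  have hPx : aeval (A.ext z) P x = 0 := by
    rw [hPz]
    exact hx
  have hxx : A.ext z (A.ext z x) = -((al ^ 2) • x) :=
    eq_neg_of_add_eq_zero_left (N755.BGWA.mem_V0.1 hx)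
  obtain ⟨h', hh⟩ : ∃ h', F = P * h' := by
    obtain ⟨r, hr⟩ : ∃ r, r = F %ₘ P := ⟨_, rfl⟩
    have h1 : r + P * (F /ₘ P) = F := by rw [hr]; exact modByMonic_add_div F P
    have h2 : r.degree < 2 := by rw [hr, ← hPd]; exact degree_modByMonic_lt F hPm
    have h3 : r.degree ≤ 1 := by
      by_cases hr0 : r = 0
      · rw [hr0, degree_zero]
        exact bot_le
      · rw [degree_eq_natDegree hr0] at h2 ⊢
        have h30 : r.natDegree < 2 := by exact_mod_cast h2
        have h31 : r.natDegree ≤ 1 := by omega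
        exact_mod_cast h31
    have h4 : r = C (r.coeff 1) * X + C (r.coeff 0) := eq_X_add_C_of_degree_le_one h3
    have h5 : aeval (A.ext z) r x = 0 := by
      have h6 : aeval (A.ext z) F x = 0 := by rw [hFz, LinearMap.zero_apply]
      rw [← h1, map_add, mul_comm P, map_mul, LinearMap.add_apply, Module.End.mul_apply, hPx,
        map_zero, add_zero] at h6
      exact h6
    rw [h4, map_add, map_mul, aeval_C, aeval_C, aeval_X, Algebra.algebraMap_eq_smul_one,
      Algebra.algebraMap_eq_smul_one, smul_mul_assoc, one_mul, LinearMap.add_apply,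
      LinearMap.smul_apply, LinearMap.smul_apply, Module.End.one_apply] at h5
    have h6 := congrArg (A.ext z) h5
    rw [map_add, map_smul, map_smul, hxx, map_zero] at h6
    have h7 : (r.coeff 0 ^ 2 + r.coeff 1 ^ 2 * al ^ 2) • x = 0 := by
      have e1 : r.coeff 0 • (r.coeff 1 • A.ext z x + r.coeff 0 • x) = 0 := by
        rw [h5, smul_zero]
      have e2 : r.coeff 1 • (r.coeff 1 • -((al ^ 2) • x) + r.coeff 0 • A.ext z x) = 0 := by
        rw [h6, smul_zero]
      have e3 : (r.coeff 0 ^ 2 + r.coeff 1 ^ 2 * al ^ 2) • x =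
          r.coeff 0 • (r.coeff 1 • A.ext z x + r.coeff 0 • x) -
            r.coeff 1 • (r.coeff 1 • -((al ^ 2) • x) + r.coeff 0 • A.ext z x) := by
        module
      rw [e3, e1, e2, sub_self]
    have h8 := (smul_eq_zero.1 h7).resolve_right hx0
    have h9 : 0 < al ^ 2 := by
      have := h.ne
      positivity
    have h10 : r.coeff 1 = 0 := by
      have a1 : r.coeff 1 ^ 2 * al ^ 2 ≤ 0 := by nlinarith [sq_nonneg (r.coeff 0)]
      have a2 : r.coeff 1 ^ 2 ≤ 0 := by
        by_contra hcon
        push Not at hcon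
        have := mul_pos hcon h9
        linarith
      exact pow_eq_zero_iff (two_ne_zero) |>.1 (le_antisymm a2 (sq_nonneg _))
    have h11 : r.coeff 0 = 0 := by
      rw [h10] at h8
      have a1 : r.coeff 0 ^ 2 = 0 := by linarith
      exact pow_eq_zero_iff (two_ne_zero) |>.1 a1
    have h13 : r = 0 := by
      rw [h4, h10, h11]
      simp
    refine ⟨F /ₘ P, ?_⟩
    rw [h13, zero_add] at h1
    exact h1.symm
  have hh0 : h' ≠ 0 := by
    intro h1
    rw [h1, mul_zero] at hh
    exact hF0 hh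
  have hdeg : h'.natDegree + 2 = f.natDegree := by
    rw [← hFd, hh, natDegree_mul hPm.ne_zero hh0, hPn, add_comm]
  have hker : ∀ x, A.ext Y (aeval (A.ext z) h' x) = W (aeval (A.ext z) h' x) := by
    intro x
    apply hy
    unfold V0
    rw [LinearMap.mem_ker, ← hPz, ← Module.End.mul_apply, ← map_mul, ← hh, hFz,
      LinearMap.zero_apply]
  obtain ⟨lam, hlam⟩ : ∃ lam : ℝ →ₗ[ℚ] ℚ, lam h'.leadingCoeff ≠ 0 := by
    by_contra hcon
    push Not at hcon
    exact hh0 (leadingCoeff_eq_zero.1 (exists_sep hcon))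
  obtain ⟨q, hq⟩ : ∃ q : ℚ[X], q = ∑ k ∈ Finset.range (h'.natDegree + 1),
    monomial k (lam (h'.coeff k)) := ⟨_, rfl⟩
  have hqz : ∀ w, aeval z q w =
      ∑ k ∈ Finset.range (h'.natDegree + 1), lam (h'.coeff k) • (z ^ k) w := by
    intro w
    rw [hq, map_sum, LinearMap.sum_apply]
    refine Finset.sum_congr rfl fun k _ => ?_
    rw [aeval_monomial, ← Algebra.smul_def, LinearMap.smul_apply]
  have hyq : Y * aeval z q ∈ M := by
    have h2 := cmpE_mem (mul_aeval_mem hM hW h') lam
    have h3 : A.cmpE lam (W * aeval (A.ext z) h') = Y * aeval z q := by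
      refine LinearMap.ext fun w => ?_
      rw [A.cmpE_apply, Module.End.mul_apply, ← hker, A.cmp_ext, N9.BTK.aeval_per, map_sum,
        Module.End.mul_apply, hqz]
      simp only [A.cmp_smul_per]
    rwa [h3] at h2
  have hq0 : q.coeff h'.natDegree ≠ 0 := by
    rw [hq, finsetSum_coeff, Finset.sum_eq_single h'.natDegree]
    · rw [coeff_monomial, if_pos rfl]
      exact hlam
    · intro k _ hk
      rw [coeff_monomial, if_neg hk]
    · intro h1
      exact absurd (Finset.self_mem_range_succ _) h1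
  have hqne : q ≠ 0 := by
    intro h1
    rw [h1] at hq0
    exact hq0 (coeff_zero _)
  have hqd : q.natDegree ≤ h'.natDegree := by
    rw [hq]
    refine natDegree_sum_le_of_forall_le _ _ fun k hk => ?_
    refine (natDegree_monomial_le _).trans ?_
    have := Finset.mem_range.1 hk
    omega
  have hqz0 : aeval z q * z ≠ 0 := by
    intro h1
    have h2 : aeval z (q * X) = 0 := by rw [map_mul, aeval_X, h1]
    have h3 := natDegree_le_natDegree (minpoly.degree_le_of_ne_zero ℚ z
      (mul_ne_zero hqne X_ne_zero) h2)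
    rw [natDegree_mul_X hqne, ← hf] at h3
    omega
  obtain ⟨r, hr⟩ := exists_inv hF hqz0
  refine ⟨Y * aeval z q * aeval z r, hMr _ hyq r, ?_⟩
  rw [mul_assoc, mul_assoc, ← mul_assoc (aeval z q), aeval_comm z r q, mul_assoc (aeval z r), hr]

end Run7.h2.OB
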